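import Mathlib

set_option autoImplicit false

/-!
# Colourings which ignore the primes that split in a quadratic field: arithmetic
-/

namespace Pool.Agent.Work.MP_0f91f8_co.QF

/-- `p` does not divide `M` and splits in `ℚ(√D)` -/
def Sp (D : ℤ) (M p : ℕ) : Prop :=
  ¬ p ∣ M ∧ ¬ (p : ℤ) ∣ 2 * D ∧ ∃ x : ℤ, (p : ℤ) ∣ x ^ 2 - D

/-- all prime factors of `n` split in `ℚ(√D)` and do not divide `M` -/
def Gd (D : ℤ) (M n : ℕ) : Prop := ∀ p : ℕ, p.Prime → p ∣ n → Sp D M p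

theorem Gd.mul {D : ℤ} {M a b : ℕ} (ha : Gd D M a) (hb : Gd D M b) : Gd D M (a * b) := by
  intro p hp h
  rcases (Nat.Prime.dvd_mul hp).mp h with h | h
  · exact ha p hp h
  · exact hb p hp h

/-- `4 D - 1` -/
def ee (D : ℤ) : ℤ := 4 * D - 1

/-- `4 D + 1` -/
def ff (D : ℤ) : ℤ := 4 * D + 1

/-- the exceptional number -/
def bb (D : ℤ) : ℤ := 16 * D ^ 2 + 40 * D + 1

/-- the first parameter of the triple -/
def mm (D w : ℤ) : ℤ := 4 * D ^ 3 * ee D ^ 6 * w ^ 4 - 1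

/-- the second parameter of the triple -/
def nn (D w : ℤ) : ℤ := 8 * D * ff D * w

theorem ee_ne (D : ℤ) : ee D ≠ 0 := by
  unfold ee
  omega

theorem ff_ne (D : ℤ) : ff D ≠ 0 := by
  unfold ff
  omega

theorem bb_ne (D : ℤ) : bb D ≠ 0 := by
  unfold bb
  intro h
  have h1 : (2 : ℤ) ∣ 1 := ⟨-(8 * D ^ 2 + 20 * D), by linarith⟩
  norm_num at h1

theorem sq_of_zmod {q : ℕ} [Fact q.Prime] (D : ℤ) (h : IsSquare (D : ZMod q)) :
    ∃ x : ℤ, (q : ℤ) ∣ x ^ 2 - D := by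
  obtain ⟨y, hy⟩ := h
  refine ⟨(y.val : ℤ), (ZMod.intCast_zmod_eq_zero_iff_dvd _ q).mp ?_⟩
  push_cast
  rw [hy, ZMod.natCast_val, ZMod.cast_id]
  ring

/-- the case distinction in a field -/
theorem field_case {F : Type*} [Field F] (D W : F) (h2 : (2 : F) ≠ 0) (hD : D ≠ 0) (hW : W ≠ 0)
    (hf : 4 * D + 1 ≠ 0) (hb : 16 * D ^ 2 + 40 * D + 1 ≠ 0) (m n : F)
    (hm : m = 4 * D ^ 3 * (4 * D - 1) ^ 6 * W ^ 4 - 1) (hn : n = 8 * D * (4 * D + 1) * W)
    (h : m = 0 ∨ m - n = 0 ∨ m + n = 0 ∨ m ^ 2 + n ^ 2 = 0) : IsSquare D := by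
  -- a common argument for the two linear factors
  have key : ∀ s : F, s ^ 2 = 1 → m - s * n = 0 → IsSquare D := by
    intro s hs h0
    have h1 : 4 * D * (D * (4 * D - 1) ^ 4 * W ^ 2 + 2) ^ 2
        = (4 * D * (4 * D - 1) ^ 2 * W + s * (4 * D + 1)) ^ 2 := by
      have h3 : 4 * D * (D * (4 * D - 1) ^ 4 * W ^ 2 + 2) ^ 2
          - (4 * D * (4 * D - 1) ^ 2 * W + s * (4 * D + 1)) ^ 2
          = (4 * D - 1) ^ 2 * (m - s * n) + (1 - s ^ 2) * (4 * D + 1) ^ 2 := by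
        rw [hm, hn]
        ring
      rw [h0, hs] at h3
      linear_combination h3
    by_cases hA : D * (4 * D - 1) ^ 4 * W ^ 2 + 2 = 0
    · exfalso
      rw [hA] at h1
      have h3 : 4 * D * (4 * D - 1) ^ 2 * W + s * (4 * D + 1) = 0 := by
        have : (4 * D * (4 * D - 1) ^ 2 * W + s * (4 * D + 1)) ^ 2 = 0 := by
          rw [← h1]
          ring
        exact pow_eq_zero_iff (two_ne_zero) |>.mp this
      apply hb
      have h4 : (s * (4 * D + 1)) ^ 2 = (4 * D * (4 * D - 1) ^ 2 * W) ^ 2 := by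
        have : s * (4 * D + 1) = -(4 * D * (4 * D - 1) ^ 2 * W) := by linear_combination h3
        rw [this]
        ring
      have h5 : (4 * D + 1) ^ 2 = (4 * D * (4 * D - 1) ^ 2 * W) ^ 2 := by
        rw [← h4, mul_pow, hs, one_mul]
      linear_combination h5 + 16 * D * hA
    · refine ⟨(4 * D * (4 * D - 1) ^ 2 * W + s * (4 * D + 1))
        / (2 * (D * (4 * D - 1) ^ 4 * W ^ 2 + 2)), ?_⟩
      have h6 : (2 * (D * (4 * D - 1) ^ 4 * W ^ 2 + 2)) ≠ 0 := mul_ne_zero h2 hA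
      rw [div_mul_div_comm, eq_div_iff (mul_ne_zero h6 h6)]
      linear_combination h1
  rcases h with h | h | h | h
  · have hu : D * (2 * D * (4 * D - 1) ^ 3 * W ^ 2) ^ 2 = 1 := by
      rw [hm] at h
      linear_combination h
    refine ⟨(2 * D * (4 * D - 1) ^ 3 * W ^ 2)⁻¹, ?_⟩
    rw [← mul_inv, ← sq]
    exact eq_inv_of_mul_eq_one_left hu
  · exact key 1 (by norm_num) (by linear_combination h)
  · exact key (-1) (by norm_num) (by linear_combination h)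
  · have hn0 : n ≠ 0 := by
      rw [hn]
      have h8 : (8 : F) ≠ 0 := by
        have : (8 : F) = 2 ^ 3 := by norm_num
        rw [this]
        exact pow_ne_zero 3 h2
      exact mul_ne_zero (mul_ne_zero (mul_ne_zero h8 hD) hf) hW
    have hX : (4 * D ^ 3 * (4 * D - 1) ^ 6 * W ^ 4 - 32 * D ^ 2 * (4 * D - 1) ^ 2 * W ^ 2 - 1) ^ 2
        + D * (16 * D * W * (D * (4 * D - 1) ^ 4 * W ^ 2 - 2)) ^ 2 = 0 := by
      rw [← h, hm, hn]
      ring
    by_cases hY : D * (4 * D - 1) ^ 4 * W ^ 2 - 2 = 0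
    · exfalso
      have h1 : 4 * D ^ 3 * (4 * D - 1) ^ 6 * W ^ 4 - 32 * D ^ 2 * (4 * D - 1) ^ 2 * W ^ 2 - 1
          = 0 := by
        rw [hY] at hX
        have : (4 * D ^ 3 * (4 * D - 1) ^ 6 * W ^ 4 - 32 * D ^ 2 * (4 * D - 1) ^ 2 * W ^ 2
            - 1) ^ 2 = 0 := by
          rw [← hX]
          ring
        exact pow_eq_zero_iff (two_ne_zero) |>.mp this
      apply hb
      have h2' : D * (4 * D - 1) ^ 4 * W ^ 2 = 2 := by linear_combination hY
      have h3 : (4 * D - 1) ^ 2 * (4 * D ^ 3 * (4 * D - 1) ^ 6 * W ^ 4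
          - 32 * D ^ 2 * (4 * D - 1) ^ 2 * W ^ 2 - 1)
          = 4 * D * (D * (4 * D - 1) ^ 4 * W ^ 2) ^ 2
            - 32 * D * (D * (4 * D - 1) ^ 4 * W ^ 2) - (4 * D - 1) ^ 2 := by ring
      rw [h1, h2', mul_zero] at h3
      linear_combination h3
    · have hY0 : 16 * D * W * (D * (4 * D - 1) ^ 4 * W ^ 2 - 2) ≠ 0 := by
        have h16 : (16 : F) ≠ 0 := by
          have : (16 : F) = 2 ^ 4 := by norm_num
          rw [this]
          exact pow_ne_zero 4 h2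
        exact mul_ne_zero (mul_ne_zero (mul_ne_zero h16 hD) hW) hY
      refine ⟨(4 * D ^ 3 * (4 * D - 1) ^ 6 * W ^ 4 - 32 * D ^ 2 * (4 * D - 1) ^ 2 * W ^ 2 - 1)
        / (16 * D * W * (D * (4 * D - 1) ^ 4 * W ^ 2 - 2)) * (m / n), ?_⟩
      generalize hXd : 4 * D ^ 3 * (4 * D - 1) ^ 6 * W ^ 4
        - 32 * D ^ 2 * (4 * D - 1) ^ 2 * W ^ 2 - 1 = X at hX ⊢
      generalize hYd : 16 * D * W * (D * (4 * D - 1) ^ 4 * W ^ 2 - 2) = Y at hX hY0 ⊢
      have h4 : X ^ 2 = -D * Y ^ 2 := by linear_combination hX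
      have h5 : m ^ 2 = -n ^ 2 := by linear_combination h
      have h6 : X / Y * (m / n) * (X / Y * (m / n)) = X ^ 2 * m ^ 2 / (Y ^ 2 * n ^ 2) := by
        field_simp
      rw [h6, h4, h5, eq_div_iff (mul_ne_zero (pow_ne_zero 2 hY0) (pow_ne_zero 2 hn0))]
      ring

/-- every prime factor of one of the four numbers splits -/
theorem core (D w : ℤ) (M : ℕ) (hM : (M : ℤ) ∣ w) (hB : bb D ∣ w) (hf : ff D ∣ w) (q : ℕ)
    (hq : q.Prime) (hd : (q : ℤ) ∣ mm D w ∨ (q : ℤ) ∣ mm D w - nn D w ∨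
      (q : ℤ) ∣ mm D w + nn D w ∨ (q : ℤ) ∣ mm D w ^ 2 + nn D w ^ 2) : Sp D M q := by
  haveI := Fact.mk hq
  have hz : ∀ a : ℤ, (q : ℤ) ∣ a → (a : ZMod q) = 0 := fun a ha =>
    (ZMod.intCast_zmod_eq_zero_iff_dvd a q).mpr ha
  have hz' : ∀ a : ℤ, (a : ZMod q) = 0 → (q : ℤ) ∣ a := fun a ha =>
    (ZMod.intCast_zmod_eq_zero_iff_dvd a q).mp ha
  have hm : ((mm D w : ℤ) : ZMod q)
      = 4 * (D : ZMod q) ^ 3 * (4 * (D : ZMod q) - 1) ^ 6 * (w : ZMod q) ^ 4 - 1 := by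
    unfold mm ee
    push_cast
    ring
  have hn : ((nn D w : ℤ) : ZMod q) = 8 * (D : ZMod q) * (4 * (D : ZMod q) + 1) * (w : ZMod q) := by
    unfold nn ff
    push_cast
    ring
  have hd' : ((mm D w : ℤ) : ZMod q) = 0 ∨ ((mm D w : ℤ) : ZMod q) - ((nn D w : ℤ) : ZMod q) = 0 ∨
      ((mm D w : ℤ) : ZMod q) + ((nn D w : ℤ) : ZMod q) = 0 ∨
      ((mm D w : ℤ) : ZMod q) ^ 2 + ((nn D w : ℤ) : ZMod q) ^ 2 = 0 := by
    rcases hd with h | h | h | h
    · exact Or.inl (hz _ h)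
    · exact Or.inr (Or.inl (by have := hz _ h; push_cast at this; exact this))
    · exact Or.inr (Or.inr (Or.inl (by have := hz _ h; push_cast at this; exact this)))
    · exact Or.inr (Or.inr (Or.inr (by have := hz _ h; push_cast at this; exact this)))
  have hbad : ¬ (((mm D w : ℤ) : ZMod q) = -1 ∧ ((nn D w : ℤ) : ZMod q) = 0) := by
    rintro ⟨h1, h2⟩
    rw [h1, h2] at hd'
    rcases hd' with h | h | h | h
    · exact one_ne_zero (by linear_combination -h : (1 : ZMod q) = 0)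
    · exact one_ne_zero (by linear_combination -h : (1 : ZMod q) = 0)
    · exact one_ne_zero (by linear_combination -h : (1 : ZMod q) = 0)
    · exact one_ne_zero (by linear_combination h : (1 : ZMod q) = 0)
  have hw0 : (w : ZMod q) ≠ 0 := by
    intro h0
    apply hbad
    rw [hm, hn, h0]
    constructor <;> ring
  have h2D : ¬ (q : ℤ) ∣ 2 * D := by
    intro h
    have h0 : (2 : ZMod q) * (D : ZMod q) = 0 := by
      have := hz _ h
      push_cast at this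
      exact this
    apply hbad
    rw [hm, hn]
    constructor
    · linear_combination (2 * (D : ZMod q) ^ 2 * (4 * (D : ZMod q) - 1) ^ 6
        * (w : ZMod q) ^ 4) * h0
    · linear_combination (4 * (4 * (D : ZMod q) + 1) * (w : ZMod q)) * h0
  have h2 : (2 : ZMod q) ≠ 0 := by
    intro h
    apply h2D
    apply hz'
    push_cast
    rw [h, zero_mul]
  have hD : (D : ZMod q) ≠ 0 := by
    intro h
    apply h2D
    apply hz'
    push_cast
    rw [h, mul_zero]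
  have hdw : ∀ a : ℤ, a ∣ w → (a : ZMod q) ≠ 0 := by
    intro a ha h0
    exact hw0 (hz _ ((hz' _ h0).trans ha))
  have hf0 : 4 * (D : ZMod q) + 1 ≠ 0 := by
    have := hdw _ hf
    unfold ff at this
    push_cast at this
    exact this
  have hb0 : 16 * (D : ZMod q) ^ 2 + 40 * (D : ZMod q) + 1 ≠ 0 := by
    have := hdw _ hB
    unfold bb at this
    push_cast at this
    exact this
  refine ⟨fun h => ?_, h2D, sq_of_zmod D (field_case _ _ h2 hD hw0 hf0 hb0 _ _ hm hn hd')⟩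
  have h3 := hdw _ hM
  apply h3
  exact hz _ (by exact_mod_cast h)

/-! ## the triple -/

/-- `|m|` -/
def UU (D w : ℤ) : ℕ := (mm D w).natAbs

/-- `|m² - n²|` -/
def VV (D w : ℤ) : ℕ := (mm D w ^ 2 - nn D w ^ 2).natAbs

/-- `m² + n²` -/
def ZZ (D w : ℤ) : ℕ := (mm D w ^ 2 + nn D w ^ 2).natAbs

theorem triple (D w : ℤ) : (2 * (nn D w).natAbs * UU D w) ^ 2 + VV D w ^ 2 = ZZ D w ^ 2 := by
  zify
  unfold UU VV ZZ
  rw [mul_pow, mul_pow]
  simp only [Int.natCast_natAbs, sq_abs]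
  ring

theorem gd_UU (D w : ℤ) (M : ℕ) (hM : (M : ℤ) ∣ w) (hB : bb D ∣ w) (hf : ff D ∣ w) :
    Gd D M (UU D w) := by
  intro p hp h
  exact core D w M hM hB hf p hp (Or.inl (Int.natCast_dvd.mpr h))

theorem gd_VV (D w : ℤ) (M : ℕ) (hM : (M : ℤ) ∣ w) (hB : bb D ∣ w) (hf : ff D ∣ w) :
    Gd D M (VV D w) := by
  intro p hp h
  have h1 : (p : ℤ) ∣ (mm D w - nn D w) * (mm D w + nn D w) := by
    have := Int.natCast_dvd.mpr h
    have h2 : (mm D w - nn D w) * (mm D w + nn D w) = mm D w ^ 2 - nn D w ^ 2 := by ring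
    rw [h2]
    exact this
  rcases (Nat.prime_iff_prime_int.mp hp).dvd_or_dvd h1 with h2 | h2
  · exact core D w M hM hB hf p hp (Or.inr (Or.inl h2))
  · exact core D w M hM hB hf p hp (Or.inr (Or.inr (Or.inl h2)))

theorem gd_ZZ (D w : ℤ) (M : ℕ) (hM : (M : ℤ) ∣ w) (hB : bb D ∣ w) (hf : ff D ∣ w) :
    Gd D M (ZZ D w) := by
  intro p hp h
  exact core D w M hM hB hf p hp (Or.inr (Or.inr (Or.inr (Int.natCast_dvd.mpr h))))

/-- split numbers: `|D (R l)² - 1|` -/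
def sg (D : ℤ) (R l : ℕ) : ℕ := (D * (R * l : ℤ) ^ 2 - 1).natAbs

theorem gd_sg (D : ℤ) (M R l : ℕ) (hM : M ∣ R) (h2 : 2 ∣ R) : Gd D M (sg D R l) := by
  intro p hp h
  haveI := Fact.mk hp
  have h0 : (p : ℤ) ∣ D * (R * l : ℤ) ^ 2 - 1 := Int.natCast_dvd.mpr h
  have hz : (D : ZMod p) * ((R : ZMod p) * (l : ZMod p)) ^ 2 = 1 := by
    have := (ZMod.intCast_zmod_eq_zero_iff_dvd _ p).mpr h0
    push_cast at this
    linear_combination this
  have hp1 : ¬ (p : ℤ) ∣ 1 := by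
    intro h1
    have := Int.natCast_dvd.mp h1
    simp only [Int.natAbs_one, Nat.dvd_one] at this
    exact hp.one_lt.ne' this
  have hR : ¬ (p : ℤ) ∣ (R : ℤ) := by
    intro h1
    apply hp1
    have h3 : (p : ℤ) ∣ D * (R * l : ℤ) ^ 2 :=
      Dvd.dvd.mul_left (Dvd.dvd.pow (Dvd.dvd.mul_right h1 _) two_ne_zero) _
    have := dvd_sub h3 h0
    rwa [sub_sub_cancel] at this
  have hD : ¬ (p : ℤ) ∣ D := by
    intro h1
    apply hp1
    have h3 : (p : ℤ) ∣ D * (R * l : ℤ) ^ 2 := Dvd.dvd.mul_right h1 _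
    have := dvd_sub h3 h0
    rwa [sub_sub_cancel] at this
  refine ⟨fun h1 => hR (by exact_mod_cast h1.trans hM), fun h1 => ?_, sq_of_zmod D ?_⟩
  · rcases (Nat.prime_iff_prime_int.mp hp).dvd_or_dvd h1 with h3 | h3
    · exact hR (h3.trans (by exact_mod_cast h2))
    · exact hD h3
  · refine ⟨((R : ZMod p) * (l : ZMod p))⁻¹, ?_⟩
    rw [← mul_inv, ← sq]
    exact eq_inv_of_mul_eq_one_left hz

end Pool.Agent.Work.MP_0f91f8_co.QF
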