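import Pool.Agent.Work.MP_0f91f8_co.QF.Main

set_option autoImplicit false

/-!
# Colourings and the primes that split in a quadratic field, local form: arithmetic
-/

open Filter Topology

namespace Pool.Agent.Work.MP_0f91f8_co.QF

theorem Gd.up {D : ℤ} {M N n : ℕ} (h : Gd D M n)
    (hN : ∀ q : ℕ, q.Prime → q ∣ N → ¬ q ∣ n) : Gd D N n := fun p hp hpn =>
  ⟨fun hpN => hN p hp hpN hpn, (h p hp hpn).2.1, (h p hp hpn).2.2⟩

theorem Gd.down {D : ℤ} {M N n : ℕ} (h : Gd D N n) (hMN : M ∣ N) : Gd D M n := fun p hp hpn =>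
  ⟨fun hpM => (h p hp hpn).1 (hpM.trans hMN), (h p hp hpn).2.1, (h p hp hpn).2.2⟩

theorem Gd.coprime {D : ℤ} {M n : ℕ} (h : Gd D M n) : Nat.Coprime n M := by
  rw [Nat.coprime_iff_gcd_eq_one]
  by_contra hne
  obtain ⟨p, hp, hpd⟩ := Nat.exists_prime_and_dvd hne
  exact (h p hp (hpd.trans (Nat.gcd_dvd_left _ _))).1 (hpd.trans (Nat.gcd_dvd_right _ _))

/-- a class modulo `N` in which `|D (T l)² - 1|` and the first parameter are prime to `N` -/
theorem class_ok (D : ℤ) (T N : ℕ) (hN : 0 < N) (h30 : 30 ∣ T) : ∃ l0 : ℤ, ∀ l : ℕ,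
    (N : ℤ) ∣ (l : ℤ) - l0 → ∀ q : ℕ, q.Prime → q ∣ N →
      ¬ q ∣ sg D T l ∧ ¬ q ∣ UU D ((T * sg D T l : ℕ) : ℤ) := by
  obtain ⟨E, hE⟩ : ∃ E : ℤ, E = 4 * D ^ 3 * ee D ^ 6 * (T : ℤ) ^ 4 - 1 := ⟨_, rfl⟩
  refine ⟨4 * D * ee D ^ 3 * T * (1 - E ^ N.totient), ?_⟩
  intro l hl q hq hqN
  haveI := Fact.mk hq
  have hdz : ∀ a : ℤ, q ∣ a.natAbs → (a : ZMod q) = 0 := fun a ha =>
    (ZMod.intCast_zmod_eq_zero_iff_dvd a q).mpr (Int.natCast_dvd.mpr ha)
  have hs4 : ((sg D T l : ℕ) : ZMod q) ^ 4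
      = ((D : ZMod q) * ((T : ZMod q) * (l : ZMod q)) ^ 2 - 1) ^ 4 := by
    have h1 : ((sg D T l : ℕ) : ℤ) ^ 4 = (D * ((T : ℤ) * l) ^ 2 - 1) ^ 4 := by
      unfold sg
      rw [show (4 : ℕ) = 2 * 2 from rfl, pow_mul, pow_mul, Int.natCast_natAbs, sq_abs]
    have h2 := congrArg (fun z : ℤ => (z : ZMod q)) h1
    push_cast at h2
    exact h2
  have hU : ((mm D ((T * sg D T l : ℕ) : ℤ) : ℤ) : ZMod q)
      = 4 * (D : ZMod q) ^ 3 * ((ee D : ℤ) : ZMod q) ^ 6 * (T : ZMod q) ^ 4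
        * ((D : ZMod q) * ((T : ZMod q) * (l : ZMod q)) ^ 2 - 1) ^ 4 - 1 := by
    rw [← hs4]
    unfold mm
    push_cast
    ring
  have hS : ((D * ((T : ℤ) * l) ^ 2 - 1 : ℤ) : ZMod q)
      = (D : ZMod q) * ((T : ZMod q) * (l : ZMod q)) ^ 2 - 1 := by
    push_cast
    ring
  have hlz : (l : ZMod q) = 4 * (D : ZMod q) * ((ee D : ℤ) : ZMod q) ^ 3 * (T : ZMod q)
      * (1 - (E : ZMod q) ^ N.totient) := by
    have h1 : (q : ℤ) ∣ (l : ℤ) - 4 * D * ee D ^ 3 * T * (1 - E ^ N.totient) :=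
      (Int.natCast_dvd_natCast.mpr hqN).trans hl
    have h2 := (ZMod.intCast_zmod_eq_zero_iff_dvd _ q).mpr h1
    push_cast at h2
    linear_combination h2
  have hEz : (E : ZMod q)
      = 4 * (D : ZMod q) ^ 3 * ((ee D : ℤ) : ZMod q) ^ 6 * (T : ZMod q) ^ 4 - 1 := by
    rw [hE]
    push_cast
    ring
  have hφ : 0 < N.totient := Nat.totient_pos.mpr hN
  suffices h : ((D : ZMod q) * ((T : ZMod q) * (l : ZMod q)) ^ 2 - 1 ≠ 0) ∧
      (4 * (D : ZMod q) ^ 3 * ((ee D : ℤ) : ZMod q) ^ 6 * (T : ZMod q) ^ 4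
        * ((D : ZMod q) * ((T : ZMod q) * (l : ZMod q)) ^ 2 - 1) ^ 4 - 1 ≠ 0) by
    constructor
    · intro h0
      apply h.1
      rw [← hS]
      exact hdz _ h0
    · intro h0
      apply h.2
      rw [← hU]
      exact hdz _ h0
  by_cases hT : (T : ZMod q) = 0
  · rw [hT]
    constructor
    · intro h0
      exact one_ne_zero (by linear_combination -h0 : (1 : ZMod q) = 0)
    · intro h0
      exact one_ne_zero (by linear_combination -h0 : (1 : ZMod q) = 0)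
  · have h30' : ∀ a : ℕ, a ∣ 30 → (a : ZMod q) ≠ 0 := by
      intro a ha h0
      apply hT
      rw [ZMod.natCast_eq_zero_iff] at h0 ⊢
      exact (h0.trans ha).trans h30
    by_cases hE0 : (E : ZMod q) = 0
    · have hl1 : (l : ZMod q) = 4 * (D : ZMod q) * ((ee D : ℤ) : ZMod q) ^ 3 * (T : ZMod q) := by
        rw [hlz, hE0, zero_pow hφ.ne']
        ring
      have hE1 : 4 * (D : ZMod q) ^ 3 * ((ee D : ℤ) : ZMod q) ^ 6 * (T : ZMod q) ^ 4 = 1 := by
        rw [hE0] at hEz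
        linear_combination -hEz
      have h4 : (D : ZMod q) * ((T : ZMod q) * (l : ZMod q)) ^ 2 = 4 := by
        rw [hl1]
        linear_combination 4 * hE1
      have h2 := h30' 2 (by norm_num)
      have h3 := h30' 3 (by norm_num)
      have h5 := h30' 5 (by norm_num)
      push_cast at h2 h3 h5
      rw [h4, hE1]
      constructor
      · intro h0
        exact h3 (by linear_combination h0)
      · intro h0
        have : (2 : ZMod q) ^ 4 * 5 = 0 := by linear_combination h0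
        exact (mul_ne_zero (pow_ne_zero 4 h2) h5) this
    · have hpow : (E : ZMod q) ^ N.totient = 1 := by
        obtain ⟨b, hb⟩ := Nat.totient_dvd_of_dvd hqN
        rw [Nat.totient_prime hq] at hb
        rw [hb, pow_mul, ZMod.pow_card_sub_one_eq_one hE0, one_pow]
      have hl1 : (l : ZMod q) = 0 := by
        rw [hlz, hpow]
        ring
      rw [hl1]
      constructor
      · intro h0
        exact one_ne_zero (by linear_combination -h0 : (1 : ZMod q) = 0)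
      · intro h0
        apply hE0
        rw [hEz]
        linear_combination h0

/-- split numbers have bounded split inverses modulo `N` -/
theorem inv_bound (D : ℤ) (N : ℕ) (hN : 0 < N) : ∃ K : ℕ, 0 < K ∧ ∀ u : ℕ, Gd D N u →
    ∃ k : ℕ, 0 < k ∧ k ≤ K ∧ Gd D N k ∧ k * u ≡ 1 [MOD N] := by
  classical
  have hφ : 0 < N.totient := Nat.totient_pos.mpr hN
  have hf : ∀ a : ℕ, ∃ k : ℕ, 0 < k ∧ Gd D N k ∧ ∀ u : ℕ, Gd D N u → u % N = a →
      k * u ≡ 1 [MOD N] := by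
    intro a
    by_cases h : ∃ u0 : ℕ, Gd D N u0 ∧ u0 % N = a
    · obtain ⟨u0, hu0, hua⟩ := h
      refine ⟨u0 ^ (N.totient - 1), pow_pos hu0.pos _, ?_, ?_⟩
      · intro p hp hpd
        exact hu0 p hp (hp.dvd_of_dvd_pow hpd)
      · intro u _ hu
        have h1 : u ≡ u0 [MOD N] := by
          unfold Nat.ModEq
          rw [hu, hua]
        have h2 : u0 ^ (N.totient - 1) * u ≡ u0 ^ (N.totient - 1) * u0 [MOD N] :=
          Nat.ModEq.mul_left _ h1
        refine h2.trans ?_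
        rw [← pow_succ, Nat.sub_add_cancel hφ]
        exact Nat.ModEq.pow_totient hu0.coprime
    · refine ⟨1, one_pos, ?_, ?_⟩
      · intro p hp hpd
        exact absurd (Nat.dvd_one.mp hpd) hp.one_lt.ne'
      · intro u hu hua
        exact absurd ⟨u, hu, hua⟩ h
  choose f hf1 hf2 hf3 using hf
  refine ⟨∑ a ∈ Finset.range N, f a + 1, Nat.succ_pos _, fun u hu => ?_⟩
  refine ⟨f (u % N), hf1 _, ?_, hf2 _, hf3 _ u hu rfl⟩
  have h1 : f (u % N) ≤ ∑ a ∈ Finset.range N, f a :=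
    Finset.single_le_sum (f := f) (fun _ _ => Nat.zero_le _)
      (Finset.mem_range.mpr (Nat.mod_lt _ hN))
  omega

end Pool.Agent.Work.MP_0f91f8_co.QF
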