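import Pool.Agent.Work.MP_0f91f8_co.QF.Size

set_option autoImplicit false

/-!
# Colourings and the primes that split in a quadratic field, local form: sizes
-/

open Filter Topology

namespace Pool.Agent.Work.MP_0f91f8_co.QF

theorem log_near (y : ℝ) (hy : |y - 1| ≤ 1 / 2) : |Real.log y| ≤ 2 * |y - 1| := by
  have h1 := abs_le.mp hy
  have hy0 : (1 : ℝ) / 2 ≤ y := by linarith [h1.1]
  have hyp : 0 < y := by linarith
  have h2 := Real.log_le_sub_one_of_pos hyp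
  have h3 := Real.one_sub_inv_le_log_of_pos hyp
  have h4 : 1 - y⁻¹ = (y - 1) / y := by field_simp
  have h5 : -(2 * |y - 1|) ≤ (y - 1) / y := by
    rw [le_div_iff₀ hyp]
    have h6 := neg_abs_le (y - 1)
    have h7 := abs_nonneg (y - 1)
    nlinarith
  rw [abs_le]
  constructor
  · rw [h4] at h3
    linarith
  · have h6 := le_abs_self (y - 1)
    have h7 := abs_nonneg (y - 1)
    linarith

/-- the sizes of the three numbers, with a rate -/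
theorem rate (D : ℤ) (hD : D ≠ 0) : ∃ C : ℝ, 0 < C ∧ ∃ w0 : ℕ, ∀ w : ℕ, w0 ≤ w →
    |Real.log (UU D w) - (Real.log (gam D) + 4 * Real.log w)| ≤ C / w ∧
    |Real.log (VV D w) - 2 * (Real.log (gam D) + 4 * Real.log w)| ≤ C / w ∧
    |Real.log (ZZ D w) - 2 * (Real.log (gam D) + 4 * Real.log w)| ≤ C / w ∧
    nn D w ^ 2 < mm D w ^ 2 := by
  have hg := gam_ne hD
  obtain ⟨a, ha⟩ : ∃ a : ℝ, a = (gam D)⁻¹ := ⟨_, rfl⟩
  obtain ⟨b, hb⟩ : ∃ b : ℝ, b = 8 * D * ff D / gam D := ⟨_, rfl⟩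
  obtain ⟨C0, hC0⟩ : ∃ C0 : ℝ, C0 = 2 * |a| + a ^ 2 + b ^ 2 + 1 := ⟨_, rfl⟩
  have hC0p : 0 < C0 := by
    rw [hC0]
    positivity
  refine ⟨2 * C0, by positivity, ⌈2 * C0⌉₊ + 1, fun w hw => ?_⟩
  have hw1 : (1 : ℝ) ≤ w := by
    have : 1 ≤ w := by omega
    exact_mod_cast this
  have hw2 : 2 * C0 ≤ w := by
    have h1 : (⌈2 * C0⌉₊ : ℝ) ≤ w := by
      have : ⌈2 * C0⌉₊ ≤ w := by omega
      exact_mod_cast this
    exact (Nat.le_ceil _).trans h1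
  have hw0 : (0 : ℝ) < w := by linarith
  have hx0 : gam D * (w : ℝ) ^ 4 ≠ 0 := mul_ne_zero hg (pow_ne_zero 4 hw0.ne')
  have hlx : Real.log (gam D * (w : ℝ) ^ 4) = Real.log (gam D) + 4 * Real.log w := by
    rw [Real.log_mul hg (pow_ne_zero 4 hw0.ne'), Real.log_pow]
    norm_num
  have hm : ((mm D w : ℤ) : ℝ) = (1 - a * (1 / (w : ℝ) ^ 4)) * (gam D * (w : ℝ) ^ 4) := by
    have h1 : ((mm D w : ℤ) : ℝ) = gam D * (w : ℝ) ^ 4 - 1 := by
      unfold mm gam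
      push_cast
      ring
    rw [h1, ha]
    field_simp
  have hn : ((nn D w : ℤ) : ℝ) = (b * (1 / (w : ℝ) ^ 3)) * (gam D * (w : ℝ) ^ 4) := by
    have h1 : ((nn D w : ℤ) : ℝ) = 8 * D * ff D * w := by
      unfold nn
      push_cast
      ring
    rw [h1, hb]
    field_simp
  have hsq : ((mm D w ^ 2 - nn D w ^ 2 : ℤ) : ℝ) = ((1 - a * (1 / (w : ℝ) ^ 4)) ^ 2
      - (b * (1 / (w : ℝ) ^ 3)) ^ 2) * (gam D * (w : ℝ) ^ 4) ^ 2 := by
    push_cast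
    rw [hm, hn]
    ring
  have hsq' : ((mm D w ^ 2 + nn D w ^ 2 : ℤ) : ℝ) = ((1 - a * (1 / (w : ℝ) ^ 4)) ^ 2
      + (b * (1 / (w : ℝ) ^ 3)) ^ 2) * (gam D * (w : ℝ) ^ 4) ^ 2 := by
    push_cast
    rw [hm, hn]
    ring
  have hl2 : Real.log ((gam D * (w : ℝ) ^ 4) ^ 2) = 2 * (Real.log (gam D) + 4 * Real.log w) := by
    rw [Real.log_pow, hlx]
    norm_num
  -- powers of `1 / w`
  have hp : ∀ k : ℕ, 0 < k → 0 ≤ 1 / (w : ℝ) ^ k ∧ 1 / (w : ℝ) ^ k ≤ 1 / w := by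
    intro k hk
    refine ⟨by positivity, ?_⟩
    apply one_div_le_one_div_of_le hw0
    calc (w : ℝ) = (w : ℝ) ^ 1 := (pow_one _).symm
      _ ≤ (w : ℝ) ^ k := pow_le_pow_right₀ hw1 hk
  have hiw : 1 / (w : ℝ) ≤ 1 := by
    rw [div_le_one hw0]
    exact hw1
  have hiw0 : 0 ≤ 1 / (w : ℝ) := by positivity
  obtain ⟨p4, hp4⟩ : ∃ p : ℝ, p = 1 / (w : ℝ) ^ 4 := ⟨_, rfl⟩
  obtain ⟨p3, hp3⟩ : ∃ p : ℝ, p = 1 / (w : ℝ) ^ 3 := ⟨_, rfl⟩
  obtain ⟨p1, hp1⟩ : ∃ p : ℝ, p = 1 / (w : ℝ) := ⟨_, rfl⟩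
  have h4 := hp 4 (by norm_num)
  have h3 := hp 3 (by norm_num)
  rw [← hp4] at hm hsq hsq' h4
  rw [← hp3] at hn hsq hsq' h3
  rw [← hp1] at h3 h4 hiw hiw0
  have ha4 : |a * p4| ≤ |a| * p1 := by
    rw [abs_mul, abs_of_nonneg h4.1]
    exact mul_le_mul_of_nonneg_left h4.2 (abs_nonneg a)
  have ha42 : (a * p4) ^ 2 ≤ a ^ 2 * p1 := by
    rw [mul_pow]
    have : p4 ^ 2 ≤ p1 := by nlinarith [h4.1, h4.2]
    exact mul_le_mul_of_nonneg_left this (sq_nonneg a)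
  have hb32 : (b * p3) ^ 2 ≤ b ^ 2 * p1 := by
    rw [mul_pow]
    have : p3 ^ 2 ≤ p1 := by nlinarith [h3.1, h3.2]
    exact mul_le_mul_of_nonneg_left this (sq_nonneg b)
  have ha42' : 0 ≤ (a * p4) ^ 2 := sq_nonneg _
  have hb32' : 0 ≤ (b * p3) ^ 2 := sq_nonneg _
  rw [abs_le] at ha4
  have hCw : C0 * p1 ≤ 1 / 2 := by
    rw [hp1, mul_one_div, div_le_iff₀ hw0]
    linarith
  have hCe : 2 * (C0 * p1) = 2 * C0 / w := by
    rw [hp1]
    ring
  have hC1 : C0 * p1 = 2 * |a| * p1 + a ^ 2 * p1 + b ^ 2 * p1 + p1 := by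
    rw [hC0]
    ring
  have hap : 0 ≤ |a| * p1 := by positivity
  have hap2 : 0 ≤ a ^ 2 * p1 := by positivity
  have hbp2 : 0 ≤ b ^ 2 * p1 := by positivity
  have fin : ∀ y : ℝ, |y - 1| ≤ C0 * p1 → |Real.log y| ≤ 2 * C0 / w ∧ 0 < y := by
    intro y hy
    constructor
    · rw [← hCe]
      exact (log_near y (hy.trans hCw)).trans (by linarith)
    · have := (abs_le.mp (hy.trans hCw)).1
      linarith
  have hU := fin (1 - a * p4) (by rw [abs_le]; constructor <;> linarith [ha4.1, ha4.2])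
  have hV := fin ((1 - a * p4) ^ 2 - (b * p3) ^ 2) (by
    rw [abs_le]; constructor <;> nlinarith [ha4.1, ha4.2])
  have hZ := fin ((1 - a * p4) ^ 2 + (b * p3) ^ 2) (by
    rw [abs_le]; constructor <;> nlinarith [ha4.1, ha4.2])
  refine ⟨?_, ?_, ?_, ?_⟩
  · unfold UU
    rw [Nat.cast_natAbs, Int.cast_abs, Real.log_abs, hm, Real.log_mul hU.2.ne' hx0, hlx,
      add_sub_cancel_right]
    exact hU.1
  · unfold VV
    rw [Nat.cast_natAbs, Int.cast_abs, Real.log_abs, hsq,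
      Real.log_mul hV.2.ne' (pow_ne_zero 2 hx0), hl2, add_sub_cancel_right]
    exact hV.1
  · unfold ZZ
    rw [Nat.cast_natAbs, Int.cast_abs, Real.log_abs, hsq',
      Real.log_mul hZ.2.ne' (pow_ne_zero 2 hx0), hl2, add_sub_cancel_right]
    exact hZ.1
  · have h1 : (0 : ℝ) < ((mm D w ^ 2 - nn D w ^ 2 : ℤ) : ℝ) := by
      rw [hsq]
      exact mul_pos hV.2 (by positivity)
    have h2 : (0 : ℤ) < mm D w ^ 2 - nn D w ^ 2 := by exact_mod_cast h1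
    linarith

/-- split numbers in short intervals and residue classes, with a rate -/
theorem windowR (D : ℤ) (hD : D ≠ 0) (R : ℕ) (hR : 0 < R) (N : ℕ) (hN : 0 < N) (l0 : ℤ) :
    ∃ C : ℝ, 0 < C ∧ ∀ x : ℝ, 1 ≤ x → ∃ l : ℕ, 0 < l ∧ (N : ℤ) ∣ (l : ℤ) - l0 ∧
      0 < sg D R l ∧ |Real.log (sg D R l) - x| ≤ C * Real.exp (-x / 2) := by
  obtain ⟨K, hK⟩ : ∃ K : ℝ, K = (D : ℝ) * (R : ℝ) ^ 2 := ⟨_, rfl⟩
  have hK0 : K ≠ 0 := by
    have h1 : (D : ℝ) ≠ 0 := by exact_mod_cast hD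
    have h2 : (R : ℝ) ≠ 0 := by exact_mod_cast hR.ne'
    rw [hK]
    exact mul_ne_zero h1 (pow_ne_zero 2 h2)
  have hKp : 0 < |K| := abs_pos.mpr hK0
  have hs : 0 < Real.sqrt |K| := Real.sqrt_pos.mpr hKp
  have hNr : (0 : ℝ) < N := by exact_mod_cast hN
  obtain ⟨b, hb⟩ : ∃ b : ℕ, (b : ℤ) = l0 % N :=
    ⟨(l0 % N).toNat, Int.toNat_of_nonneg (Int.emod_nonneg _ (by exact_mod_cast hN.ne'))⟩
  have hbN : (b : ℝ) ≤ N := by
    have h1 : (b : ℤ) < N := by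
      rw [hb]
      exact Int.emod_lt_of_pos _ (by exact_mod_cast hN)
    have h2 : b < N := by exact_mod_cast h1
    exact_mod_cast h2.le
  have hbd : (N : ℤ) ∣ (b : ℤ) - l0 := by
    rw [hb]
    have := Int.emod_add_mul_ediv l0 N
    exact ⟨-(l0 / N), by linarith⟩
  refine ⟨2 + 4 * N * Real.sqrt |K|, by positivity, fun x hx => ?_⟩
  obtain ⟨L, hL⟩ : ∃ L : ℝ, L = Real.exp (x / 2) / Real.sqrt |K| := ⟨_, rfl⟩
  have hLp : 0 < L := by
    rw [hL]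
    positivity
  have hL2 : |K| * L ^ 2 = Real.exp x := by
    rw [hL, div_pow, Real.sq_sqrt hKp.le, ← Real.exp_nat_mul]
    field_simp
    congr 1
    push_cast
    ring
  have hLi : 1 / L = Real.sqrt |K| * Real.exp (-x / 2) := by
    rw [hL, one_div_div, div_eq_mul_inv, ← Real.exp_neg]
    congr 2
    ring
  obtain ⟨n, hn⟩ : ∃ n : ℕ, n = ⌈L / N⌉₊ := ⟨_, rfl⟩
  have hn1 : L / N ≤ n := by
    rw [hn]
    exact Nat.le_ceil _
  have hn2 : (n : ℝ) < L / N + 1 := by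
    rw [hn]
    exact Nat.ceil_lt_add_one (by positivity)
  have hnp : 0 < n := by
    rw [hn]
    exact Nat.ceil_pos.mpr (by positivity)
  refine ⟨b + N * n, by positivity, ?_, ?_⟩
  · obtain ⟨c, hc⟩ := hbd
    refine ⟨c + n, ?_⟩
    push_cast
    linarith
  have hl1 : L ≤ ((b + N * n : ℕ) : ℝ) := by
    push_cast
    have h1 : L ≤ N * n := by
      rw [div_le_iff₀ hNr] at hn1
      linarith
    have : (0 : ℝ) ≤ b := Nat.cast_nonneg b
    linarith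
  have hl2 : ((b + N * n : ℕ) : ℝ) ≤ L + 2 * N := by
    push_cast
    have h1 : (N : ℝ) * n ≤ L + N := by
      have h2 : (N : ℝ) * n ≤ N * (L / N + 1) := mul_le_mul_of_nonneg_left hn2.le hNr.le
      have h3 : (N : ℝ) * (L / N + 1) = L + N := by
        field_simp
      linarith
    linarith
  obtain ⟨l, hl⟩ : ∃ l : ℕ, l = b + N * n := ⟨_, rfl⟩
  rw [← hl] at hl1 hl2 ⊢
  have hlp : (0 : ℝ) < l := lt_of_lt_of_le hLp hl1
  -- the first factor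
  have hKl : 1 / (|K| * (l : ℝ) ^ 2) ≤ Real.exp (-x) := by
    have h1 : Real.exp x ≤ |K| * (l : ℝ) ^ 2 := by
      rw [← hL2]
      apply mul_le_mul_of_nonneg_left _ hKp.le
      exact pow_le_pow_left₀ hLp.le hl1 2
    rw [Real.exp_neg, ← one_div]
    exact one_div_le_one_div_of_le (Real.exp_pos x) h1
  have he1 : Real.exp (-x) ≤ 1 / 2 := by
    have h1 : Real.exp (-x) ≤ Real.exp (-1) := Real.exp_le_exp.mpr (by linarith)
    have h2 : Real.exp (-1) ≤ 1 / 2 := by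
      rw [Real.exp_neg, ← one_div]
      apply one_div_le_one_div_of_le (by norm_num)
      have := Real.add_one_le_exp (1 : ℝ)
      linarith
    linarith
  have he2 : Real.exp (-x) ≤ Real.exp (-x / 2) := Real.exp_le_exp.mpr (by linarith)
  have hy1 : |(1 - 1 / (K * (l : ℝ) ^ 2)) - 1| ≤ Real.exp (-x) := by
    rw [show (1 - 1 / (K * (l : ℝ) ^ 2)) - 1 = -(1 / (K * (l : ℝ) ^ 2)) by ring, abs_neg,
      abs_div, abs_one, abs_mul, abs_of_nonneg (by positivity : (0 : ℝ) ≤ (l : ℝ) ^ 2)]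
    exact hKl
  have hy2 := log_near _ (hy1.trans he1)
  have hyp : 0 < 1 - 1 / (K * (l : ℝ) ^ 2) := by
    have := (abs_le.mp (hy1.trans he1)).1
    linarith
  -- the second factor
  have hq1 : 0 ≤ Real.log (l / L) := Real.log_nonneg (by rw [le_div_iff₀ hLp]; linarith)
  have hq2 : Real.log (l / L) ≤ 2 * N * (Real.sqrt |K| * Real.exp (-x / 2)) := by
    have h1 := Real.log_le_sub_one_of_pos (div_pos hlp hLp)
    have h2 : (l : ℝ) / L - 1 ≤ 2 * N * (1 / L) := by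
      rw [mul_one_div, sub_le_iff_le_add, div_le_iff₀ hLp, add_mul, div_mul_cancel₀ _ hLp.ne']
      linarith
    rw [hLi] at h2
    linarith
  have hreal : ((D * (R * l : ℤ) ^ 2 - 1 : ℤ) : ℝ)
      = (1 - 1 / (K * (l : ℝ) ^ 2)) * (K * (l : ℝ) ^ 2) := by
    have h0 : K * (l : ℝ) ^ 2 ≠ 0 := mul_ne_zero hK0 (pow_ne_zero 2 hlp.ne')
    rw [sub_mul, one_mul, div_mul_cancel₀ _ h0, hK]
    push_cast
    ring
  have hKL : Real.log (K * (l : ℝ) ^ 2) = x + 2 * Real.log (l / L) := by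
    have h1 : Real.log (K * (l : ℝ) ^ 2) = Real.log (|K| * (l : ℝ) ^ 2) := by
      rw [← Real.log_abs (K * (l : ℝ) ^ 2), abs_mul,
        abs_of_nonneg (by positivity : (0 : ℝ) ≤ (l : ℝ) ^ 2)]
    have h2 : |K| * (l : ℝ) ^ 2 = Real.exp x * (l / L) ^ 2 := by
      rw [← hL2]
      field_simp
    rw [h1, h2, Real.log_mul (Real.exp_pos x).ne' (by positivity), Real.log_exp, Real.log_pow]
    norm_num
  have hlog : Real.log (sg D R l)
      = Real.log (1 - 1 / (K * (l : ℝ) ^ 2)) + (x + 2 * Real.log (l / L)) := by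
    unfold sg
    rw [Nat.cast_natAbs, Int.cast_abs, Real.log_abs, hreal, Real.log_mul hyp.ne'
      (mul_ne_zero hK0 (pow_ne_zero 2 hlp.ne')), hKL]
  constructor
  · have h1 : ((D * (R * l : ℤ) ^ 2 - 1 : ℤ) : ℝ) ≠ 0 := by
      rw [hreal]
      exact mul_ne_zero hyp.ne' (mul_ne_zero hK0 (pow_ne_zero 2 hlp.ne'))
    unfold sg
    exact Int.natAbs_pos.mpr (by exact_mod_cast h1)
  · rw [hlog]
    rw [abs_le] at hy2 ⊢
    have h0 : 0 ≤ Real.exp (-x / 2) := (Real.exp_pos _).le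
    have h9 : (2 + 4 * N * Real.sqrt |K|) * Real.exp (-x / 2)
        = 2 * Real.exp (-x / 2) + 2 * (2 * N * (Real.sqrt |K| * Real.exp (-x / 2))) := by ring
    rw [h9]
    have h10 : 0 ≤ 2 * N * (Real.sqrt |K| * Real.exp (-x / 2)) := by positivity
    constructor <;> linarith [hy2.1, hy2.2]

end Pool.Agent.Work.MP_0f91f8_co.QF
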