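import Pool.Agent.Work.MP_0f91f8_co.QF.Loc1
import Pool.Agent.Work.MP_0f91f8_co.QF.Loc2

set_option autoImplicit false

/-!
# Colourings and the primes that split in a quadratic field, local form: one pair of scales
-/

open Filter Topology

namespace Pool.Agent.Work.MP_0f91f8_co.QF

theorem ev_exp (a b C ρ κ : ℝ) (hρ : 0 < ρ) (h : κ < a / 2) :
    ∀ᶠ Λ : ℝ in atTop, C * Real.exp (-(a * Λ + b) / 2) ≤ ρ * Real.exp (-(κ * Λ)) := by
  have h1 : Tendsto (fun Λ : ℝ => C * Real.exp (-b / 2) * Real.exp (-((a / 2 - κ) * Λ)))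
      atTop (𝓝 0) := by
    have h2 : Tendsto (fun Λ : ℝ => (a / 2 - κ) * Λ) atTop atTop :=
      tendsto_id.const_mul_atTop (by linarith)
    have h3 := (Real.tendsto_exp_neg_atTop_nhds_zero.comp h2).const_mul (C * Real.exp (-b / 2))
    simpa using h3
  filter_upwards [h1.eventually (gt_mem_nhds hρ)] with Λ hΛ
  have h4 : C * Real.exp (-(a * Λ + b) / 2)
      = (C * Real.exp (-b / 2) * Real.exp (-((a / 2 - κ) * Λ))) * Real.exp (-(κ * Λ)) := by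
    rw [mul_assoc, mul_assoc, ← Real.exp_add, ← Real.exp_add]
    congr 2
    ring
  rw [h4]
  exact mul_le_mul_of_nonneg_right hΛ.le (Real.exp_pos _).le

theorem ev_lin (a b Y : ℝ) (h : 0 < a) : ∀ᶠ Λ : ℝ in atTop, Y ≤ a * Λ + b := by
  have h1 : Tendsto (fun Λ : ℝ => a * Λ + b) atTop atTop :=
    tendsto_atTop_add_const_right _ _ (tendsto_id.const_mul_atTop h)
  exact h1.eventually (eventually_ge_atTop Y)

/-- the numbers of the triple for two given scales -/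
theorem pair (D : ℤ) (hD : D ≠ 0) (Mi Mj T : ℕ) (hij : Mi ∣ Mj) (hMj : 0 < Mj) (hT : 0 < T)
    (hMT : Mi ∣ T) (h30 : 30 ∣ T) (hbT : (bb D).natAbs ∣ T) (hfT : (ff D).natAbs ∣ T)
    (κ κ' : ℝ) (hκ : 0 ≤ κ) (hκκ : κ < κ') :
    ∃ V0 : ℝ, ∀ u v : ℝ, V0 ≤ v → (1 + 6 * κ') * v ≤ u → (5 + 6 * κ') * u ≤ 8 * v →
      ∃ k σ w : ℕ, 0 < k ∧ 0 < σ ∧ w = T * σ ∧
        Gd D Mj (k * (σ * UU D w)) ∧ Gd D Mi (k * VV D w) ∧ Gd D Mi (k * ZZ D w) ∧
        k * (σ * UU D w) ≡ 1 [MOD Mj] ∧ k * VV D w ≡ 1 [MOD Mi] ∧ k * ZZ D w ≡ 1 [MOD Mi] ∧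
        (v ≤ Real.log ((k * (σ * UU D w) : ℕ)) ∧
          Real.log ((k * (σ * UU D w) : ℕ)) ≤ v + Real.exp (-(κ * v)) / 2) ∧
        (u ≤ Real.log ((k * VV D w : ℕ)) ∧
          Real.log ((k * VV D w : ℕ)) ≤ u + Real.exp (-(κ * u)) / 2) ∧
        (u ≤ Real.log ((k * ZZ D w : ℕ)) ∧
          Real.log ((k * ZZ D w : ℕ)) ≤ u + Real.exp (-(κ * u)) / 2) := by
  obtain ⟨l0, hl0⟩ := class_ok D T Mj hMj h30
  obtain ⟨C1, hC1, hw1⟩ := windowR D hD T hT Mj hMj l0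
  obtain ⟨C2, hC2, hw2⟩ := windowR D hD (2 * Mj) (by omega) 1 one_pos 0
  obtain ⟨C3, hC3, w0, hw0⟩ := rate D hD
  obtain ⟨K, hK, hinv⟩ := inv_bound D Mj hMj
  have hκ'0 : 0 < κ' := by linarith
  have hKr : (0 : ℝ) < K := by exact_mod_cast hK
  have hTr : (0 : ℝ) < T := by exact_mod_cast hT
  have hT1 : (1 : ℝ) ≤ T := by exact_mod_cast hT
  have h2T : 2 ∣ T := (by norm_num : 2 ∣ 30).trans h30
  obtain ⟨LT, hLT⟩ : ∃ LT : ℝ, LT = Real.log (gam D) + 4 * Real.log T := ⟨_, rfl⟩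
  obtain ⟨b1, hb1⟩ : ∃ b1 : ℝ, b1 = -(1 + LT) / 3 := ⟨_, rfl⟩
  obtain ⟨b2, hb2⟩ : ∃ b2 : ℝ, b2 = 2 / 3 * LT - 10 - Real.log K := ⟨_, rfl⟩
  -- conditions in `v`
  have e1 := ev_exp (2 * κ') b1 C1 (1 / 48) κ (by norm_num) (by linarith)
  have e4 := ev_lin (2 * κ') b1 1 (by linarith)
  have e5 := ev_lin (2 * κ') b1 (Real.log (w0 + 1) + 1) (by linarith)
  have e2 := ev_exp (4 * κ') (2 * b1) (C3 * Real.exp 1) (1 / 16) (8 / 5 * κ) (by norm_num)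
    (by linarith)
  -- conditions in `u`
  have e3 := ev_exp (2 * κ') b2 C2 (1 / 16) κ (by norm_num) (by linarith)
  have e6 := ev_lin (2 * κ') b2 1 (by linarith)
  obtain ⟨V0, hV0⟩ := eventually_atTop.mp
    (e1.and (e2.and (e3.and (e4.and (e5.and (e6.and (eventually_ge_atTop 0)))))))
  refine ⟨V0, fun u v hv huv huv2 => ?_⟩
  obtain ⟨e1, e2, -, e4, e5, -, e7⟩ := hV0 v hv
  have hvu : v ≤ u := by nlinarith
  obtain ⟨-, -, e3, -, -, e6, e8⟩ := hV0 u (hv.trans hvu)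
  obtain ⟨θ, hθ⟩ : ∃ θ : ℝ, θ = Real.exp (-(κ * u)) := ⟨_, rfl⟩
  obtain ⟨τ, hτ⟩ : ∃ τ : ℝ, τ = Real.exp (-(κ * v)) := ⟨_, rfl⟩
  have hθ0 : 0 < θ := by
    rw [hθ]
    exact Real.exp_pos _
  have hθτ : θ ≤ τ := by
    rw [hθ, hτ]
    exact Real.exp_le_exp.mpr (by nlinarith)
  have hτ1 : τ ≤ 1 := by
    rw [hτ]
    exact Real.exp_le_one_iff.mpr (by nlinarith)
  rw [← hθ] at e3 ⊢
  rw [← hτ] at e1 ⊢
  -- the parameter `σ`
  obtain ⟨x1, hx1⟩ : ∃ x1 : ℝ, x1 = (u + θ / 4 - v - τ / 4 - LT) / 3 := ⟨_, rfl⟩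
  have hx1l : 2 * κ' * v + b1 ≤ x1 := by
    rw [hx1, hb1]
    linarith
  obtain ⟨l, hlp, hlr, hσ0, hσ⟩ := hw1 x1 (by linarith)
  have hE1 : Real.exp (-x1 / 2) ≤ Real.exp (-(2 * κ' * v + b1) / 2) :=
    Real.exp_le_exp.mpr (by linarith)
  have hσ' : |Real.log (sg D T l) - x1| ≤ 1 / 48 * τ :=
    hσ.trans ((mul_le_mul_of_nonneg_left hE1 hC1.le).trans e1)
  have hcl := hl0 l hlr
  obtain ⟨σ, hσd⟩ : ∃ σ : ℕ, σ = sg D T l := ⟨_, rfl⟩
  rw [← hσd] at hσ0 hσ' hcl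
  obtain ⟨w, hw⟩ : ∃ w : ℕ, w = T * σ := ⟨_, rfl⟩
  rw [← hw] at hcl
  have hσr : (0 : ℝ) < σ := by exact_mod_cast hσ0
  have hwp : 0 < w := by
    rw [hw]
    exact Nat.mul_pos hT hσ0
  have hwr : (0 : ℝ) < w := by exact_mod_cast hwp
  have hTw : T ∣ w := by
    rw [hw]
    exact Dvd.intro _ rfl
  have hlogw : Real.log w = Real.log T + Real.log σ := by
    rw [hw, Nat.cast_mul, Real.log_mul hTr.ne' hσr.ne']
  have hlogT : 0 ≤ Real.log (T : ℝ) := Real.log_nonneg hT1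
  rw [abs_le] at hσ'
  have hlw1 : x1 - 1 ≤ Real.log w := by
    rw [hlogw]
    linarith [hσ'.1]
  have hww0 : w0 ≤ w := by
    have h3 : Real.log (w0 + 1) ≤ Real.log w := by linarith
    have h4 : (w0 : ℝ) + 1 ≤ w := (Real.log_le_log_iff (by positivity) hwr).mp h3
    have h5 : ((w0 + 1 : ℕ) : ℝ) ≤ w := by
      push_cast
      exact h4
    have h6 : w0 + 1 ≤ w := by exact_mod_cast h5
    omega
  have hCw : C3 / w ≤ 1 / 16 * θ := by
    have h0 : 1 / 16 * Real.exp (-(8 / 5 * κ * v)) ≤ 1 / 16 * θ := by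
      rw [hθ]
      apply mul_le_mul_of_nonneg_left _ (by norm_num)
      apply Real.exp_le_exp.mpr
      have : 5 * u ≤ 8 * v := by nlinarith
      nlinarith
    refine le_trans ?_ (e2.trans h0)
    have h3 : 1 / (w : ℝ) ≤ Real.exp (1 - x1) := by
      have h4 : Real.exp (x1 - 1) ≤ w := by
        rw [← Real.exp_log hwr]
        exact Real.exp_le_exp.mpr hlw1
      rw [show (1 : ℝ) - x1 = -(x1 - 1) by ring, Real.exp_neg, ← one_div]
      exact one_div_le_one_div_of_le (Real.exp_pos _) h4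
    have h5 : Real.exp (1 - x1) ≤ Real.exp 1 * Real.exp (-(4 * κ' * v + 2 * b1) / 2) := by
      rw [← Real.exp_add]
      exact Real.exp_le_exp.mpr (by linarith)
    calc C3 / w = C3 * (1 / w) := by ring
      _ ≤ C3 * (Real.exp 1 * Real.exp (-(4 * κ' * v + 2 * b1) / 2)) :=
        mul_le_mul_of_nonneg_left (h3.trans h5) hC3.le
      _ = C3 * Real.exp 1 * Real.exp (-(4 * κ' * v + 2 * b1) / 2) := by ring
  obtain ⟨hU, hV, hZ, hlt⟩ := hw0 w hww0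
  have hA : Real.log (gam D) + 4 * Real.log (w : ℝ) = LT + 4 * Real.log σ := by
    rw [hlogw, hLT]
    ring
  rw [hA] at hU hV hZ
  have hU' := abs_le.mp (hU.trans hCw)
  have hV' := abs_le.mp (hV.trans hCw)
  have hZ' := abs_le.mp (hZ.trans hCw)
  -- divisibility
  have hMiw : Mi ∣ w := hMT.trans hTw
  have hMiw' : ((Mi : ℕ) : ℤ) ∣ (w : ℤ) := by exact_mod_cast hMiw
  have hbw : bb D ∣ (w : ℤ) := Int.dvd_natCast.mpr (hbT.trans hTw)
  have hfw : ff D ∣ (w : ℤ) := Int.dvd_natCast.mpr (hfT.trans hTw)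
  have gσ : Gd D Mj σ := by
    have h3 : Gd D 1 (sg D T l) := gd_sg D 1 T l (one_dvd _) h2T
    rw [← hσd] at h3
    exact h3.up (fun q hq hqN => (hcl q hq hqN).1)
  have gU : Gd D Mj (UU D w) :=
    (gd_UU D w Mi hMiw' hbw hfw).up (fun q hq hqN => (hcl q hq hqN).2)
  have gV : Gd D Mi (VV D w) := gd_VV D w Mi hMiw' hbw hfw
  have gZ : Gd D Mi (ZZ D w) := gd_ZZ D w Mi hMiw' hbw hfw
  have h2Mj : (2 : ℕ) ∣ 2 * Mj := Dvd.intro _ rfl
  have hMj2 : Mj ∣ 2 * Mj := Dvd.intro_left _ rfl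
  have gk0 : Gd D Mj (sg D (2 * Mj) 1) := gd_sg D Mj (2 * Mj) 1 hMj2 h2Mj
  obtain ⟨kh, hkh0, hkhK, gkh, hkh⟩ := hinv _ (gk0.mul (gσ.mul gU))
  have hkhr : (0 : ℝ) < kh := by exact_mod_cast hkh0
  have hlkh : Real.log kh ≤ Real.log K := Real.log_le_log hkhr (by exact_mod_cast hkhK)
  -- the parameter `k`
  obtain ⟨x2, hx2⟩ : ∃ x2 : ℝ, x2 = u + θ / 4 - 2 * (LT + 4 * Real.log σ) - Real.log kh :=
    ⟨_, rfl⟩
  have hx2l : 2 * κ' * u + b2 ≤ x2 := by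
    rw [hx2, hb2]
    linarith [hσ'.2]
  obtain ⟨l', hlp', -, hk20, hk2⟩ := hw2 x2 (by linarith)
  have hE2 : Real.exp (-x2 / 2) ≤ Real.exp (-(2 * κ' * u + b2) / 2) :=
    Real.exp_le_exp.mpr (by linarith)
  have hk2' : |Real.log (sg D (2 * Mj) l') - x2| ≤ 1 / 16 * θ :=
    hk2.trans ((mul_le_mul_of_nonneg_left hE2 hC2.le).trans e3)
  rw [abs_le] at hk2'
  have gk2 : Gd D Mj (sg D (2 * Mj) l') := gd_sg D Mj (2 * Mj) l' hMj2 h2Mj
  have hk2r : (0 : ℝ) < sg D (2 * Mj) l' := by exact_mod_cast hk20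
  have hUr : (0 : ℝ) < UU D w := by exact_mod_cast gU.pos
  have hVr : (0 : ℝ) < VV D w := by exact_mod_cast gV.pos
  have hZr : (0 : ℝ) < ZZ D w := by exact_mod_cast gZ.pos
  have hMj2p : 0 < 2 * Mj := by omega
  -- residues
  have r0 : (kh : ZMod Mj) * ((sg D (2 * Mj) l' : ℕ) : ZMod Mj)
      * ((σ : ZMod Mj) * ((UU D w : ℕ) : ZMod Mj)) = 1 := by
    have h3 := (ZMod.natCast_eq_natCast_iff _ _ _).mpr hkh
    push_cast at h3
    have h4 : ((sg D (2 * Mj) l' : ℕ) : ZMod Mj) = ((sg D (2 * Mj) 1 : ℕ) : ZMod Mj) := by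
      rw [sg_mod D hD Mj (2 * Mj) l' hMj2 h2Mj hMj2p hlp',
        sg_mod D hD Mj (2 * Mj) 1 hMj2 h2Mj hMj2p one_pos]
    rw [h4]
    linear_combination h3
  have r1 : kh * sg D (2 * Mj) l' * (σ * UU D w) ≡ 1 [MOD Mj] := by
    rw [← ZMod.natCast_eq_natCast_iff]
    push_cast
    exact r0
  have r2 : (kh : ZMod Mi) * ((sg D (2 * Mj) l' : ℕ) : ZMod Mi) = 1 := by
    have h3 := (ZMod.natCast_eq_natCast_iff _ _ _).mpr (r1.of_dvd hij)
    push_cast at h3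
    have h4 : (σ : ZMod Mi) * ((UU D w : ℕ) : ZMod Mi) = 1 := by
      rw [UU_mod D hD Mi w hMiw hwp, hσd, sg_mod D hD Mi T l hMT h2T hT hlp, sign_sq D hD Mi]
    rw [h4, mul_one] at h3
    exact h3
  have rV : kh * sg D (2 * Mj) l' * VV D w ≡ 1 [MOD Mi] := by
    rw [← ZMod.natCast_eq_natCast_iff]
    push_cast
    rw [r2, VV_mod D Mi w hMiw hlt, one_mul]
  have rZ : kh * sg D (2 * Mj) l' * ZZ D w ≡ 1 [MOD Mi] := by
    rw [← ZMod.natCast_eq_natCast_iff]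
    push_cast
    rw [r2, ZZ_mod D Mi w hMiw, one_mul]
  have gk : Gd D Mj (kh * sg D (2 * Mj) l') := gkh.mul gk2
  refine ⟨kh * sg D (2 * Mj) l', σ, w, Nat.mul_pos hkh0 hk20, hσ0, hw, gk.mul (gσ.mul gU),
    (gk.down hij).mul gV, (gk.down hij).mul gZ, r1, rV, rZ, ?_, ?_, ?_⟩
  · have h3 : Real.log ((kh * sg D (2 * Mj) l' * (σ * UU D w) : ℕ))
        = Real.log kh + Real.log (sg D (2 * Mj) l') + (Real.log σ + Real.log (UU D w)) := by
      push_cast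
      rw [Real.log_mul (by positivity) (by positivity), Real.log_mul hkhr.ne' hk2r.ne',
        Real.log_mul hσr.ne' hUr.ne']
    rw [h3]
    constructor <;> linarith [hk2'.1, hk2'.2, hU'.1, hU'.2, hσ'.1, hσ'.2]
  · have h3 : Real.log ((kh * sg D (2 * Mj) l' * VV D w : ℕ))
        = Real.log kh + Real.log (sg D (2 * Mj) l') + Real.log (VV D w) := by
      push_cast
      rw [Real.log_mul (by positivity) (by positivity), Real.log_mul hkhr.ne' hk2r.ne']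
    rw [h3]
    constructor <;> linarith [hk2'.1, hk2'.2, hV'.1, hV'.2]
  · have h3 : Real.log ((kh * sg D (2 * Mj) l' * ZZ D w : ℕ))
        = Real.log kh + Real.log (sg D (2 * Mj) l') + Real.log (ZZ D w) := by
      push_cast
      rw [Real.log_mul (by positivity) (by positivity), Real.log_mul hkhr.ne' hk2r.ne']
    rw [h3]
    constructor <;> linarith [hk2'.1, hk2'.2, hZ'.1, hZ'.2]

end Pool.Agent.Work.MP_0f91f8_co.QF
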