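import Pool.Agent.Work.MP_0f91f8_co.QF.Loc3

set_option autoImplicit false

/-!
# Colourings and the primes that split in a quadratic field, local form: the theorem
-/

open Filter Topology

namespace Pool.Agent.Work.MP_0f91f8_co.QF

/-- a chain in `S` with prescribed divisibility -/
theorem chain (S : Set ℕ) (hS : ∀ n : ℕ, 0 < n → ∃ s ∈ S, 0 < s ∧ n ∣ s) (M : ℕ → ℕ)
    (hM : ∀ s ∈ S, 0 < M s) (N0 g C : ℕ) (hN0 : 0 < N0) (hg : 0 < g) (hC : 0 < C) :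
    ∃ s N : ℕ → ℕ, (∀ i, s i ∈ S) ∧ (∀ i, 0 < s i) ∧ (∀ i, 0 < N i) ∧ (∀ i, M (s i) ∣ N i) ∧
      (∀ i, N0 ∣ N i) ∧ (∀ i j, i < j → N i ∣ N j) ∧
      (∀ i j, i < j → ∃ T : ℕ, 0 < T ∧ s j = s i * (g * T) ∧ N i ∣ T ∧ C ∣ T) := by
  choose f hfS hf0 hfd using hS
  -- the state is a pair
  let st : ℕ → {p : ℕ × ℕ // p.1 ∈ S ∧ 0 < p.1 ∧ 0 < p.2} := fun n =>
    Nat.rec (motive := fun _ => {p : ℕ × ℕ // p.1 ∈ S ∧ 0 < p.1 ∧ 0 < p.2})
      ⟨(f 1 one_pos, N0 * M (f 1 one_pos)),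
        hfS _ _, hf0 _ _, Nat.mul_pos hN0 (hM _ (hfS _ _))⟩
      (fun _ p =>
        ⟨(f (p.1.1 * (g * (p.1.2 * C)))
            (Nat.mul_pos p.2.2.1 (Nat.mul_pos hg (Nat.mul_pos p.2.2.2 hC))),
          p.1.2 * M (f (p.1.1 * (g * (p.1.2 * C)))
            (Nat.mul_pos p.2.2.1 (Nat.mul_pos hg (Nat.mul_pos p.2.2.2 hC))))),
          hfS _ _, hf0 _ _, Nat.mul_pos p.2.2.2 (hM _ (hfS _ _))⟩) n
  have hst : ∀ i, (st i).1.1 * (g * ((st i).1.2 * C)) ∣ (st (i + 1)).1.1 := fun i => hfd _ _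
  have hst2 : ∀ i, (st (i + 1)).1.2 = (st i).1.2 * M (st (i + 1)).1.1 := fun i => rfl
  have hN1 : ∀ i j, i < j → (st i).1.2 ∣ (st j).1.2 := by
    intro i j hij
    induction j, hij using Nat.le_induction with
    | base =>
      rw [hst2 i]
      exact Dvd.intro _ rfl
    | succ j _ ih =>
      rw [hst2 j]
      exact Dvd.dvd.mul_right ih _
  have hs1 : ∀ i j, i < j → (st i).1.1 * (g * ((st i).1.2 * C)) ∣ (st j).1.1 := by
    intro i j hij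
    induction j, hij using Nat.le_induction with
    | base => exact hst i
    | succ j _ ih => exact ih.trans ((Dvd.intro _ rfl).trans (hst j))
  refine ⟨fun i => (st i).1.1, fun i => (st i).1.2, fun i => (st i).2.1, fun i => (st i).2.2.1,
    fun i => (st i).2.2.2, ?_, ?_, hN1, ?_⟩
  · intro i
    cases i with
    | zero => exact Dvd.intro_left _ rfl
    | succ i =>
      show M (st (i + 1)).1.1 ∣ (st (i + 1)).1.2
      rw [hst2 i]
      exact Dvd.intro_left _ rfl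
  · intro i
    induction i with
    | zero => exact Dvd.intro _ rfl
    | succ i ih =>
      show N0 ∣ (st (i + 1)).1.2
      rw [hst2 i]
      exact Dvd.dvd.mul_right ih _
  · intro i j hij
    obtain ⟨q, hq⟩ := hs1 i j hij
    have hq0 : 0 < q := by
      rcases Nat.eq_zero_or_pos q with h | h
      · exfalso
        rw [h, mul_zero] at hq
        exact (st j).2.2.1.ne' hq
      · exact h
    refine ⟨(st i).1.2 * C * q, ?_, ?_, ?_, ?_⟩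
    · exact Nat.mul_pos (Nat.mul_pos (st i).2.2.2 hC) hq0
    · show (st j).1.1 = (st i).1.1 * (g * ((st i).1.2 * C * q))
      rw [hq]
      ring
    · exact ⟨C * q, by ring⟩
    · exact ⟨(st i).1.2 * q, by ring⟩

/-- numbers in the logarithmic window are in the short interval -/
theorem short (a m : ℕ) (κ : ℝ) (ha : 0 < a) (hκ : 0 ≤ κ) (hm : 0 < m)
    (h1 : Real.log a ≤ Real.log m)
    (h2 : Real.log m ≤ Real.log a + Real.exp (-(κ * Real.log a)) / 2) :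
    a ≤ m ∧ (m : ℝ) ≤ a + (a : ℝ) ^ (1 - κ) := by
  have har : (0 : ℝ) < a := by exact_mod_cast ha
  have hmr : (0 : ℝ) < m := by exact_mod_cast hm
  have ha1 : (1 : ℝ) ≤ a := by exact_mod_cast ha
  have hla : 0 ≤ Real.log (a : ℝ) := Real.log_nonneg ha1
  constructor
  · have := (Real.log_le_log_iff har hmr).mp h1
    exact_mod_cast this
  · obtain ⟨t, ht⟩ : ∃ t : ℝ, t = Real.exp (-(κ * Real.log a)) := ⟨_, rfl⟩
    have ht0 : 0 < t := by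
      rw [ht]
      exact Real.exp_pos _
    have ht1 : t ≤ 1 := by
      rw [ht]
      exact Real.exp_le_one_iff.mpr (by nlinarith)
    rw [← ht] at h2
    have h3 : (m : ℝ) ≤ a * Real.exp (t / 2) := by
      rw [← Real.exp_log hmr]
      calc Real.exp (Real.log m) ≤ Real.exp (Real.log a + t / 2) := Real.exp_le_exp.mpr h2
        _ = a * Real.exp (t / 2) := by rw [Real.exp_add, Real.exp_log har]
    have h4 : Real.exp (t / 2) ≤ 1 + t := by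
      have h5 := Real.add_one_le_exp (-(t / 2))
      have h6 : Real.exp (t / 2) * Real.exp (-(t / 2)) = 1 := by
        rw [← Real.exp_add, add_neg_cancel, Real.exp_zero]
      have h7 := Real.exp_pos (t / 2)
      have h8 : Real.exp (t / 2) * (1 - t / 2) ≤ 1 := by nlinarith
      by_contra h9
      push Not at h9
      nlinarith
    have h5 : (a : ℝ) ^ (1 - κ) = a * t := by
      rw [ht, Real.rpow_def_of_pos har, mul_sub, mul_one, sub_eq_add_neg, Real.exp_add,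
        Real.exp_log har]
      congr 2
      ring
    rw [h5]
    nlinarith

theorem local_main (D : ℤ) (hD : D ≠ 0) (r : ℕ) (κ ε : ℝ) (hκ : 0 ≤ κ) (hε : 0 ≤ ε)
    (hκε : (1 + ε) ^ (r + 1) * (1 + 6 * κ) ^ r * (5 + 6 * κ) < 8) (S : Set ℕ)
    (hS : ∀ n : ℕ, 0 < n → ∃ s ∈ S, 0 < s ∧ n ∣ s) (c : ℕ → Fin r)
    (hc : ∀ s ∈ S, ∃ M : ℕ, 0 < M ∧ ∀ᶠ X : ℕ in atTop, ∃ a : ℕ, X ≤ a ∧
      (a : ℝ) ≤ (X : ℝ) ^ (1 + ε) ∧ ∃ γ : Fin r, ∀ m : ℕ, a ≤ m → (m : ℝ) ≤ a + (a : ℝ) ^ (1 - κ) →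
        m ≡ 1 [MOD M] → (∀ p : ℕ, p.Prime → p ∣ m → ∃ x : ℤ, (p : ℤ) ∣ x ^ 2 - D) →
        c (s * m) = γ) :
    ∃ x y z : ℕ, 0 < x ∧ 0 < y ∧ 0 < z ∧ x ^ 2 + y ^ 2 = z ^ 2 ∧ c x = c y ∧ c y = c z := by
  -- room in the exponents
  have hcont : Tendsto (fun t : ℝ => (1 + ε) ^ (r + 1) * (1 + 6 * t) ^ r * (5 + 6 * t))
      (𝓝[>] κ) (𝓝 ((1 + ε) ^ (r + 1) * (1 + 6 * κ) ^ r * (5 + 6 * κ))) := by
    apply Tendsto.mono_left _ nhdsWithin_le_nhds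
    apply Continuous.tendsto
    fun_prop
  obtain ⟨κ2, hκ2, hκ2'⟩ := ((hcont.eventually (gt_mem_nhds hκε)).and
    (eventually_mem_nhdsWithin)).exists
  have hκ2'' : κ < κ2 := hκ2'
  obtain ⟨κ1, hκ1, hκ12⟩ := exists_between hκ2''
  have hκ10 : 0 < κ1 := by linarith
  have hκ20 : 0 < κ2 := by linarith
  obtain ⟨ρ, hρ⟩ : ∃ ρ : ℝ, ρ = ((1 + ε) * (1 + 6 * κ2))⁻¹ := ⟨_, rfl⟩
  have hden : 1 < (1 + ε) * (1 + 6 * κ2) := by nlinarith
  have hρ0 : 0 < ρ := by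
    rw [hρ]
    positivity
  have hρ1 : ρ < 1 := by
    rw [hρ]
    exact inv_lt_one_of_one_lt₀ hden
  have hρe : ρ * ((1 + ε) * (1 + 6 * κ2)) = 1 := by
    rw [hρ]
    exact inv_mul_cancel₀ (by positivity)
  have hρr : (5 + 6 * κ2) * (1 + ε) ≤ 8 * ρ ^ r := by
    have h1 : ρ ^ r * ((1 + ε) * (1 + 6 * κ2)) ^ r = 1 := by
      rw [← mul_pow, hρe, one_pow]
    have h2 : (1 + ε) ^ (r + 1) * (1 + 6 * κ2) ^ r * (5 + 6 * κ2)
        = ((5 + 6 * κ2) * (1 + ε)) * ((1 + ε) * (1 + 6 * κ2)) ^ r := by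
      rw [mul_pow, pow_succ]
      ring
    rw [h2] at hκ2
    have h3 : 0 < ρ ^ r := pow_pos hρ0 r
    calc (5 + 6 * κ2) * (1 + ε)
        = (((5 + 6 * κ2) * (1 + ε)) * ((1 + ε) * (1 + 6 * κ2)) ^ r) * ρ ^ r := by
          rw [mul_assoc, mul_comm (((1 + ε) * (1 + 6 * κ2)) ^ r), h1, mul_one]
      _ ≤ 8 * ρ ^ r := mul_le_mul_of_nonneg_right hκ2.le h3.le
  -- the chain
  have hc' : ∀ s : ℕ, ∃ M : ℕ, s ∈ S → 0 < M ∧ ∀ᶠ X : ℕ in atTop, ∃ a : ℕ, X ≤ a ∧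
      (a : ℝ) ≤ (X : ℝ) ^ (1 + ε) ∧ ∃ γ : Fin r, ∀ m : ℕ, a ≤ m → (m : ℝ) ≤ a + (a : ℝ) ^ (1 - κ) →
        m ≡ 1 [MOD M] → (∀ p : ℕ, p.Prime → p ∣ m → ∃ x : ℤ, (p : ℤ) ∣ x ^ 2 - D) →
        c (s * m) = γ := by
    intro s
    by_cases h : s ∈ S
    · obtain ⟨M, hM⟩ := hc s h
      exact ⟨M, fun _ => hM⟩
    · exact ⟨0, fun h' => absurd h' h⟩
  choose M hM using hc'
  have hgp : 0 < 16 * (D * ff D).natAbs := by
    have := Int.natAbs_pos.mpr (mul_ne_zero hD (ff_ne D))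
    omega
  have hCp : 0 < 30 * (bb D).natAbs * (ff D).natAbs := by
    have h1 := Int.natAbs_pos.mpr (bb_ne D)
    have h2 := Int.natAbs_pos.mpr (ff_ne D)
    positivity
  obtain ⟨s, N, hsS, hs0, hN0, hMN, -, hNN, hT⟩ := chain S hS M (fun s hs => (hM s hs).1) 1
    (16 * (D * ff D).natAbs) (30 * (bb D).natAbs * (ff D).natAbs) one_pos hgp hCp
  -- the pairs
  have hpair : ∀ i j : ℕ, ∃ V0 : ℝ, i < j → ∀ u v : ℝ, V0 ≤ v → (1 + 6 * κ1) * v ≤ u →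
      (5 + 6 * κ1) * u ≤ 8 * v →
      ∃ k X Y Z : ℕ, 0 < k ∧ Gd D (N j) (k * X) ∧ Gd D (N i) (k * Y) ∧ Gd D (N i) (k * Z) ∧
        k * X ≡ 1 [MOD N j] ∧ k * Y ≡ 1 [MOD N i] ∧ k * Z ≡ 1 [MOD N i] ∧
        (s j * (k * X)) ^ 2 + (s i * (k * Y)) ^ 2 = (s i * (k * Z)) ^ 2 ∧
        (v ≤ Real.log ((k * X : ℕ)) ∧
          Real.log ((k * X : ℕ)) ≤ v + Real.exp (-(κ * v)) / 2) ∧
        (u ≤ Real.log ((k * Y : ℕ)) ∧
          Real.log ((k * Y : ℕ)) ≤ u + Real.exp (-(κ * u)) / 2) ∧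
        (u ≤ Real.log ((k * Z : ℕ)) ∧
          Real.log ((k * Z : ℕ)) ≤ u + Real.exp (-(κ * u)) / 2) := by
    intro i j
    by_cases hij : i < j
    · obtain ⟨T, hT0, hsT, hNT, hCT⟩ := hT i j hij
      have h30 : 30 ∣ T := by
        refine Dvd.dvd.trans ?_ hCT
        rw [mul_assoc]
        exact Dvd.intro _ rfl
      have hb : (bb D).natAbs ∣ T := by
        refine Dvd.dvd.trans ?_ hCT
        exact Dvd.intro (30 * (ff D).natAbs) (by ring)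
      have hf : (ff D).natAbs ∣ T := by
        refine Dvd.dvd.trans ?_ hCT
        exact Dvd.intro_left _ rfl
      obtain ⟨V0, hV0⟩ := pair D hD (N i) (N j) T (hNN i j hij) (hN0 j) hT0 hNT h30 hb hf κ κ1 hκ
        hκ1
      refine ⟨V0, fun _ u v h1 h2 h3 => ?_⟩
      obtain ⟨k, σ, w, hk, hσ, hw, gX, gY, gZ, rX, rY, rZ, sX, sY, sZ⟩ := hV0 u v h1 h2 h3
      refine ⟨k, σ * UU D w, VV D w, ZZ D w, hk, gX, gY, gZ, rX, rY, rZ, ?_, sX, sY, sZ⟩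
      have h4 : (nn D w).natAbs = 8 * (D * ff D).natAbs * w := by
        unfold nn
        rw [show 8 * D * ff D * (w : ℤ) = 8 * (D * ff D) * (w : ℤ) by ring, Int.natAbs_mul,
          Int.natAbs_mul]
        rfl
      have hleg : s j * (k * (σ * UU D w)) = s i * (k * (2 * (nn D w).natAbs * UU D w)) := by
        rw [h4, hw, hsT]
        ring
      rw [hleg]
      calc (s i * (k * (2 * (nn D w).natAbs * UU D w))) ^ 2 + (s i * (k * VV D w)) ^ 2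
          = (s i * k) ^ 2 * ((2 * (nn D w).natAbs * UU D w) ^ 2 + VV D w ^ 2) := by ring
        _ = (s i * (k * ZZ D w)) ^ 2 := by
          rw [triple]
          ring
    · exact ⟨0, fun h => absurd h hij⟩
  choose V0 hV0 using hpair
  -- large scales
  have hsc : ∀ i : ℕ, Tendsto (fun Λ : ℝ => ρ ^ i * Λ) atTop atTop := fun i =>
    tendsto_id.const_mul_atTop (pow_pos hρ0 i)
  have hX : ∀ i : ℕ, Tendsto (fun Λ : ℝ => ⌈Real.exp (ρ ^ i * Λ)⌉₊) atTop atTop := fun i =>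
    tendsto_nat_ceil_atTop.comp (Real.tendsto_exp_atTop.comp (hsc i))
  have ev1 : ∀ᶠ Λ : ℝ in atTop, ∀ i ∈ Finset.range (r + 1), ∃ a : ℕ,
      ⌈Real.exp (ρ ^ i * Λ)⌉₊ ≤ a ∧ (a : ℝ) ≤ (⌈Real.exp (ρ ^ i * Λ)⌉₊ : ℝ) ^ (1 + ε) ∧
      ∃ γ : Fin r, ∀ m : ℕ, a ≤ m → (m : ℝ) ≤ a + (a : ℝ) ^ (1 - κ) →
        m ≡ 1 [MOD M (s i)] → (∀ p : ℕ, p.Prime → p ∣ m → ∃ x : ℤ, (p : ℤ) ∣ x ^ 2 - D) →
        c (s i * m) = γ :=
    (eventually_all_finset (Finset.range (r + 1))).mpr (fun i _ =>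
      (hX i).eventually ((hM (s i) (hsS i)).2))
  have ev2 : ∀ᶠ Λ : ℝ in atTop, ∀ i ∈ Finset.range (r + 1),
      (1 + 6 * κ1) * (1 + ε) * (ρ ^ (i + 1) * Λ + 1) ≤ ρ ^ i * Λ ∧
      (5 + 6 * κ1) * (1 + ε) * (ρ ^ i * Λ + 1) ≤ 8 * (ρ ^ r * (ρ ^ i * Λ)) ∧ 0 ≤ ρ ^ i * Λ := by
    refine (eventually_all_finset (Finset.range (r + 1))).mpr (fun i _ => ?_)
    have hpi : 0 < ρ ^ i := pow_pos hρ0 i
    have t1 : ∀ᶠ y : ℝ in atTop, (1 + 6 * κ1) * (1 + ε) ≤ (1 - (1 + 6 * κ1) * (1 + ε) * ρ) * y := by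
      have hpos : 0 < 1 - (1 + 6 * κ1) * (1 + ε) * ρ := by
        have : (1 + 6 * κ1) * (1 + ε) * ρ < 1 := by
          calc (1 + 6 * κ1) * (1 + ε) * ρ < (1 + 6 * κ2) * (1 + ε) * ρ := by
                apply mul_lt_mul_of_pos_right _ hρ0
                apply mul_lt_mul_of_pos_right _ (by linarith)
                linarith
            _ = 1 := by linarith [hρe]
        linarith
      exact (tendsto_id.const_mul_atTop hpos).eventually (eventually_ge_atTop _)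
    have t2 : ∀ᶠ y : ℝ in atTop, (5 + 6 * κ1) * (1 + ε) ≤ 6 * (κ2 - κ1) * (1 + ε) * y := by
      have hpos : 0 < 6 * (κ2 - κ1) * (1 + ε) := by
        have : 0 < κ2 - κ1 := by linarith
        positivity
      exact (tendsto_id.const_mul_atTop hpos).eventually (eventually_ge_atTop _)
    have t3 : ∀ᶠ y : ℝ in atTop, 0 ≤ y := eventually_ge_atTop 0
    filter_upwards [(hsc i).eventually (t1.and (t2.and t3))] with Λ hΛ
    obtain ⟨t1, t2, t3⟩ := hΛ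
    refine ⟨?_, ?_, t3⟩
    · have h1 : ρ ^ (i + 1) * Λ = ρ * (ρ ^ i * Λ) := by
        rw [pow_succ]
        ring
      rw [h1]
      linarith
    · have h1 : (5 + 6 * κ2) * (1 + ε) * (ρ ^ i * Λ) ≤ 8 * ρ ^ r * (ρ ^ i * Λ) :=
        mul_le_mul_of_nonneg_right hρr t3
      linarith
  have ev3 : ∀ᶠ Λ : ℝ in atTop, ∀ i ∈ Finset.range (r + 1), ∀ j ∈ Finset.range (r + 1),
      V0 i j ≤ ρ ^ j * Λ :=
    (eventually_all_finset (Finset.range (r + 1))).mpr (fun i _ =>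
      (eventually_all_finset (Finset.range (r + 1))).mpr (fun j _ =>
        (hsc j).eventually (eventually_ge_atTop _)))
  obtain ⟨Λ, hΛ1, hΛ2, hΛ3⟩ := (ev1.and (ev2.and ev3)).exists
  have href : ∀ i : Fin (r + 1), ∃ a : ℕ, ∃ γ : Fin r, 0 < a ∧ ρ ^ (i : ℕ) * Λ ≤ Real.log a ∧
      Real.log a ≤ (1 + ε) * (ρ ^ (i : ℕ) * Λ + 1) ∧
      ∀ m : ℕ, Real.log a ≤ Real.log m →
        Real.log m ≤ Real.log a + Real.exp (-(κ * Real.log a)) / 2 →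
        m ≡ 1 [MOD N i] → Gd D (N i) m → c (s i * m) = γ := by
    intro i
    have hi := Finset.mem_range.mpr i.isLt
    obtain ⟨a, ha1, ha2, γ, hγ⟩ := hΛ1 i hi
    obtain ⟨-, -, hΛ0⟩ := hΛ2 i hi
    obtain ⟨X, hXd⟩ : ∃ X : ℕ, X = ⌈Real.exp (ρ ^ (i : ℕ) * Λ)⌉₊ := ⟨_, rfl⟩
    rw [← hXd] at ha1 ha2
    have hX1 : Real.exp (ρ ^ (i : ℕ) * Λ) ≤ X := by
      rw [hXd]
      exact Nat.le_ceil _
    have hX2 : (X : ℝ) < Real.exp (ρ ^ (i : ℕ) * Λ) + 1 := by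
      rw [hXd]
      exact Nat.ceil_lt_add_one (Real.exp_pos _).le
    have hXp : (0 : ℝ) < X := lt_of_lt_of_le (Real.exp_pos _) hX1
    have hX3 : Real.log X ≤ ρ ^ (i : ℕ) * Λ + 1 := by
      rw [Real.log_le_iff_le_exp hXp, Real.exp_add]
      have h1 : 1 ≤ Real.exp (ρ ^ (i : ℕ) * Λ) := Real.one_le_exp hΛ0
      have h2 := Real.add_one_le_exp (1 : ℝ)
      nlinarith
    have har : (0 : ℝ) < a := lt_of_lt_of_le hXp (by exact_mod_cast ha1)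
    have ha0 : 0 < a := by exact_mod_cast har
    refine ⟨a, γ, ha0, ?_, ?_, ?_⟩
    · rw [Real.le_log_iff_exp_le har]
      exact hX1.trans (by exact_mod_cast ha1)
    · have h1 : Real.log a ≤ (1 + ε) * Real.log X := by
        rw [← Real.log_rpow hXp]
        exact Real.log_le_log har ha2
      exact h1.trans (mul_le_mul_of_nonneg_left hX3 (by linarith))
    · intro m hm1 hm2 hm3 hm4
      obtain ⟨h1, h2⟩ := short a m κ ha0 hκ hm4.pos hm1 hm2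
      exact hγ m h1 h2 (hm3.of_dvd (hMN i)) (fun p hp hpm => (hm4 p hp hpm).2.2)
  choose a γ ha0 hal hau hcol using href
  -- pigeonhole
  obtain ⟨i', j', hij', hγ'⟩ := Fintype.exists_ne_map_eq_of_card_lt γ
    (by simp only [Fintype.card_fin]; omega)
  obtain ⟨i, j, hij, hγ⟩ : ∃ i j : Fin (r + 1), i < j ∧ γ i = γ j := by
    rcases lt_or_gt_of_ne hij' with h | h
    · exact ⟨i', j', h, hγ'⟩
    · exact ⟨j', i', h, hγ'.symm⟩
  have hi := Finset.mem_range.mpr i.isLt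
  have hj := Finset.mem_range.mpr j.isLt
  have hijN : (i : ℕ) < (j : ℕ) := hij
  obtain ⟨q1, q2, q3⟩ := hΛ2 i hi
  have hv0 : V0 i j ≤ Real.log (a j) := (hΛ3 i hi j hj).trans (hal j)
  have hΛ : 0 ≤ Λ := by
    have hpi : 0 < ρ ^ (i : ℕ) := pow_pos hρ0 _
    by_contra h
    push Not at h
    have := mul_neg_of_pos_of_neg hpi h
    linarith
  have hc1 : (1 + 6 * κ1) * Real.log (a j) ≤ Real.log (a i) := by
    refine le_trans ?_ (hal i)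
    refine le_trans ?_ q1
    have h1 : ρ ^ (j : ℕ) * Λ ≤ ρ ^ ((i : ℕ) + 1) * Λ :=
      mul_le_mul_of_nonneg_right (pow_le_pow_of_le_one hρ0.le hρ1.le hijN) hΛ
    have h2 : Real.log (a j) ≤ (1 + ε) * (ρ ^ ((i : ℕ) + 1) * Λ + 1) :=
      (hau j).trans (mul_le_mul_of_nonneg_left (by linarith) (by linarith))
    calc (1 + 6 * κ1) * Real.log (a j)
        ≤ (1 + 6 * κ1) * ((1 + ε) * (ρ ^ ((i : ℕ) + 1) * Λ + 1)) :=
          mul_le_mul_of_nonneg_left h2 (by linarith)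
      _ = (1 + 6 * κ1) * (1 + ε) * (ρ ^ ((i : ℕ) + 1) * Λ + 1) := by ring
  have hc2 : (5 + 6 * κ1) * Real.log (a i) ≤ 8 * Real.log (a j) := by
    have h1 : (5 + 6 * κ1) * Real.log (a i)
        ≤ (5 + 6 * κ1) * ((1 + ε) * (ρ ^ (i : ℕ) * Λ + 1)) :=
      mul_le_mul_of_nonneg_left (hau i) (by linarith)
    have h2 : ρ ^ r * (ρ ^ (i : ℕ) * Λ) ≤ ρ ^ (j : ℕ) * Λ := by
      rw [← mul_assoc, ← pow_add]
      refine mul_le_mul_of_nonneg_right (pow_le_pow_of_le_one hρ0.le hρ1.le ?_) hΛ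
      have := j.isLt
      omega
    have h3 := hal j
    linarith
  obtain ⟨k, X, Y, Z, hk, gX, gY, gZ, rX, rY, rZ, htr, ⟨sX1, sX2⟩, ⟨sY1, sY2⟩, ⟨sZ1, sZ2⟩⟩ :=
    hV0 i j hijN (Real.log (a i)) (Real.log (a j)) hv0 hc1 hc2
  refine ⟨s j * (k * X), s i * (k * Y), s i * (k * Z), Nat.mul_pos (hs0 _) gX.pos,
    Nat.mul_pos (hs0 _) gY.pos, Nat.mul_pos (hs0 _) gZ.pos, htr, ?_, ?_⟩
  · rw [hcol j (k * X) sX1 sX2 rX gX, hcol i (k * Y) sY1 sY2 rY gY, hγ]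
  · rw [hcol i (k * Y) sY1 sY2 rY gY, hcol i (k * Z) sZ1 sZ2 rZ gZ]

end Pool.Agent.Work.MP_0f91f8_co.QF
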