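import Pool.Agent.Work.MP_0f91f8_co.QF.Size

set_option autoImplicit false

/-!
# Colourings which ignore the primes that split in a quadratic field: the theorem
-/

open Filter Topology

namespace Pool.Agent.Work.MP_0f91f8_co.QF

theorem Gd.pos {D : ℤ} {M n : ℕ} (h : Gd D M n) : 0 < n := by
  rcases Nat.eq_zero_or_pos n with h0 | h0
  · exfalso
    subst h0
    have := (h 2 Nat.prime_two (dvd_zero 2)).2.1
    exact this ⟨D, by push_cast; ring⟩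
  · exact h0

/-- the residue of split numbers -/
theorem sg_mod (D : ℤ) (hD : D ≠ 0) (M R l : ℕ) (hM : M ∣ R) (h2 : 2 ∣ R) (hR : 0 < R)
    (hl : 0 < l) : ((sg D R l : ℕ) : ZMod M) = ((-D.sign : ℤ) : ZMod M) := by
  have hR2 : 2 ≤ R := Nat.le_of_dvd hR h2
  have h1 : (1 : ℤ) < (R * l : ℤ) ^ 2 := by
    have h3 : (2 : ℤ) ≤ (R * l : ℤ) := by
      have : 2 * 1 ≤ R * l := Nat.mul_le_mul hR2 hl
      exact_mod_cast this
    nlinarith
  have hz : ((D * (R * l : ℤ) ^ 2 - 1 : ℤ) : ZMod M) = -1 := by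
    have h4 : ((R : ℕ) : ZMod M) = 0 := (ZMod.natCast_eq_zero_iff R M).mpr hM
    push_cast
    rw [h4]
    ring
  rcases lt_or_gt_of_ne hD with h | h
  · have h5 : ((sg D R l : ℕ) : ℤ) = -(D * (R * l : ℤ) ^ 2 - 1) := by
      unfold sg
      exact Int.ofNat_natAbs_of_nonpos (by nlinarith)
    have h6 : ((sg D R l : ℕ) : ZMod M) = (((sg D R l : ℕ) : ℤ) : ZMod M) := by push_cast; rfl
    rw [h6, h5, Int.sign_eq_neg_one_of_neg h, Int.cast_neg, hz]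
    push_cast
    ring
  · have h5 : ((sg D R l : ℕ) : ℤ) = D * (R * l : ℤ) ^ 2 - 1 := by
      unfold sg
      exact Int.natAbs_of_nonneg (by nlinarith)
    have h6 : ((sg D R l : ℕ) : ZMod M) = (((sg D R l : ℕ) : ℤ) : ZMod M) := by push_cast; rfl
    rw [h6, h5, hz, Int.sign_eq_one_of_pos h]
    push_cast
    ring

theorem UU_mod (D : ℤ) (hD : D ≠ 0) (M w : ℕ) (hM : M ∣ w) (hw : 0 < w) :
    ((UU D w : ℕ) : ZMod M) = ((-D.sign : ℤ) : ZMod M) := by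
  have he : (0 : ℤ) < ee D ^ 6 := by
    have := ee_ne D
    positivity
  have hw4 : (0 : ℤ) < (w : ℤ) ^ 4 := by positivity
  have hz : ((mm D w : ℤ) : ZMod M) = -1 := by
    have h4 : ((w : ℕ) : ZMod M) = 0 := (ZMod.natCast_eq_zero_iff w M).mpr hM
    unfold mm
    push_cast
    rw [h4]
    ring
  rcases lt_or_gt_of_ne hD with h | h
  · have h7 : mm D w ≤ 0 := by
      unfold mm
      have h8 : D ^ 3 < 0 := by
        have : D ^ 3 = D * D ^ 2 := by ring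
        rw [this]
        exact mul_neg_of_neg_of_pos h (by positivity)
      have h9 : D ^ 3 * (ee D ^ 6 * (w : ℤ) ^ 4) < 0 :=
        mul_neg_of_neg_of_pos h8 (mul_pos he hw4)
      nlinarith
    have h5 : ((UU D w : ℕ) : ℤ) = -(mm D w) := by
      unfold UU
      exact Int.ofNat_natAbs_of_nonpos h7
    have h6 : ((UU D w : ℕ) : ZMod M) = (((UU D w : ℕ) : ℤ) : ZMod M) := by push_cast; rfl
    rw [h6, h5, Int.sign_eq_neg_one_of_neg h, Int.cast_neg, hz]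
    push_cast
    ring
  · have h7 : 0 ≤ mm D w := by
      unfold mm
      have h8 : 0 < D ^ 3 := by positivity
      have h9 : 0 < D ^ 3 * (ee D ^ 6 * (w : ℤ) ^ 4) := mul_pos h8 (mul_pos he hw4)
      nlinarith
    have h5 : ((UU D w : ℕ) : ℤ) = mm D w := by
      unfold UU
      exact Int.natAbs_of_nonneg h7
    have h6 : ((UU D w : ℕ) : ZMod M) = (((UU D w : ℕ) : ℤ) : ZMod M) := by push_cast; rfl
    rw [h6, h5, hz, Int.sign_eq_one_of_pos h]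
    push_cast
    ring

theorem VV_mod (D : ℤ) (M w : ℕ) (hM : M ∣ w) (h : nn D w ^ 2 < mm D w ^ 2) :
    ((VV D w : ℕ) : ZMod M) = 1 := by
  have h4 : ((w : ℕ) : ZMod M) = 0 := (ZMod.natCast_eq_zero_iff w M).mpr hM
  have h5 : ((VV D w : ℕ) : ℤ) = mm D w ^ 2 - nn D w ^ 2 := by
    unfold VV
    exact Int.natAbs_of_nonneg (by linarith)
  have h6 : ((VV D w : ℕ) : ZMod M) = (((VV D w : ℕ) : ℤ) : ZMod M) := by push_cast; rfl
  rw [h6, h5]
  unfold mm nn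
  push_cast
  rw [h4]
  ring

theorem ZZ_mod (D : ℤ) (M w : ℕ) (hM : M ∣ w) : ((ZZ D w : ℕ) : ZMod M) = 1 := by
  have h4 : ((w : ℕ) : ZMod M) = 0 := (ZMod.natCast_eq_zero_iff w M).mpr hM
  have h5 : ((ZZ D w : ℕ) : ℤ) = mm D w ^ 2 + nn D w ^ 2 := by
    unfold ZZ
    exact Int.natAbs_of_nonneg (by positivity)
  have h6 : ((ZZ D w : ℕ) : ZMod M) = (((ZZ D w : ℕ) : ℤ) : ZMod M) := by push_cast; rfl
  rw [h6, h5]
  unfold mm nn
  push_cast
  rw [h4]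
  ring

theorem sign_sq (D : ℤ) (hD : D ≠ 0) (M : ℕ) :
    ((-D.sign : ℤ) : ZMod M) * ((-D.sign : ℤ) : ZMod M) = 1 := by
  rw [← Int.cast_mul]
  have : -D.sign * -D.sign = 1 := by
    rcases lt_or_gt_of_ne hD with h | h
    · rw [Int.sign_eq_neg_one_of_neg h]
      norm_num
    · rw [Int.sign_eq_one_of_pos h]
      norm_num
  rw [this, Int.cast_one]

/-- the centre of the size class of `τ` is close to `τ` -/
theorem centre (τ t d : ℝ) (hd : 0 < d) :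
    |t + ((⌊(τ - t) / d⌋ : ℝ) + 1 / 2) * d - τ| ≤ d / 2 := by
  have h1 := Int.floor_le ((τ - t) / d)
  have h2 := Int.lt_floor_add_one ((τ - t) / d)
  have h3 : (⌊(τ - t) / d⌋ : ℝ) * d ≤ τ - t := by rwa [le_div_iff₀ hd] at h1
  have h4 : τ - t < ((⌊(τ - t) / d⌋ : ℝ) + 1) * d := by rwa [div_lt_iff₀ hd] at h2
  rw [abs_le]
  constructor <;> nlinarith

/-- numbers near the centre are in the size class -/
theorem floor_near (τ t d x : ℝ) (hd : 0 < d)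
    (hx : |x - (t + ((⌊(τ - t) / d⌋ : ℝ) + 1 / 2) * d)| < d / 2) :
    ⌊(x - t) / d⌋ = ⌊(τ - t) / d⌋ := by
  rw [Int.floor_eq_iff, le_div_iff₀ hd, div_lt_iff₀ hd]
  rw [abs_lt] at hx
  constructor <;> nlinarith [hx.1, hx.2]

theorem main (D : ℤ) (hD : D ≠ 0) (M : ℕ) (hM : 0 < M) (t d : ℕ → ℝ) (hd : ∀ s, 0 < d s) (r : ℕ)
    (c : ℕ → Fin r)
    (hc : ∀ s m n : ℕ, 0 < s → (∀ p : ℕ, p.Prime → p ∣ m * n → Sp D M p) → m ≡ n [MOD M] →
      ⌊(Real.log m - t s) / d s⌋ = ⌊(Real.log n - t s) / d s⌋ → c (s * m) = c (s * n)) :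
    ∃ x y z : ℕ, 0 < x ∧ 0 < y ∧ 0 < z ∧ x ^ 2 + y ^ 2 = z ^ 2 ∧ c x = c y ∧ c y = c z := by
  -- the constants
  obtain ⟨N0, hN0⟩ : ∃ N0 : ℕ, N0 = M * (bb D).natAbs * (ff D).natAbs := ⟨_, rfl⟩
  have hbb : 0 < (bb D).natAbs := Int.natAbs_pos.mpr (bb_ne D)
  have hff : 0 < (ff D).natAbs := Int.natAbs_pos.mpr (ff_ne D)
  have hN0p : 0 < N0 := by
    rw [hN0]
    positivity
  have hMN : M ∣ N0 := by
    rw [hN0, mul_assoc]
    exact Dvd.intro _ rfl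
  obtain ⟨g, hg⟩ : ∃ g : ℕ, g = 16 * (D * ff D).natAbs := ⟨_, rfl⟩
  have hgp : 0 < g := by
    rw [hg]
    have := Int.natAbs_pos.mpr (mul_ne_zero hD (ff_ne D))
    omega
  set G : ℕ := g * N0 with hG
  have hGp : 0 < G := Nat.mul_pos hgp hN0p
  set T : ℕ → ℕ := fun k => g ^ (k - 1) * N0 ^ k with hT
  have hTp : ∀ k, 0 < T k := fun k => Nat.mul_pos (pow_pos hgp _) (pow_pos hN0p _)
  have hTG : ∀ k, 0 < k → g * T k = G ^ k := by
    intro k hk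
    rw [hG, mul_pow, hT]
    have : g ^ k = g * g ^ (k - 1) := by rw [← pow_succ', Nat.sub_add_cancel hk]
    rw [this]
    ring
  have hNT : ∀ k, 0 < k → N0 ∣ T k := fun k hk =>
    Dvd.dvd.mul_left (dvd_pow_self N0 hk.ne') _
  set R : ℕ := 2 * N0 with hR
  have hRp : 0 < R := by omega
  have hMR : M ∣ R := Dvd.dvd.mul_left hMN 2
  have h2R : 2 ∣ R := Dvd.intro _ rfl
  -- scales
  obtain ⟨δ0, hδ0, hδd⟩ : ∃ δ0 : ℝ, 0 < δ0 ∧ ∀ i ∈ Finset.range (r + 1), δ0 ≤ d (G ^ i) := by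
    obtain ⟨i0, -, h⟩ := (Finset.range (r + 1)).exists_min_image (fun i => d (G ^ i))
      ⟨0, Finset.mem_range.mpr (Nat.succ_pos r)⟩
    exact ⟨d (G ^ i0), hd _, h⟩
  obtain ⟨dm, hdm⟩ : ∃ dm : ℝ, ∀ i ∈ Finset.range (r + 1), d (G ^ i) ≤ dm := by
    obtain ⟨i0, -, h⟩ := (Finset.range (r + 1)).exists_max_image (fun i => d (G ^ i))
      ⟨0, Finset.mem_range.mpr (Nat.succ_pos r)⟩
    exact ⟨d (G ^ i0), h⟩
  have hdm0 : 0 < dm :=
    lt_of_lt_of_le (hd _) (hdm 0 (Finset.mem_range.mpr (Nat.succ_pos r)))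
  set ρ : ℝ := δ0 / 16 with hρ
  have hρ0 : 0 < ρ := by positivity
  obtain ⟨w0, hw0⟩ := asym D hD ρ hρ0
  obtain ⟨Y, hY⟩ := window D hD R hRp ρ hρ0 w0
  set L : ℕ → ℝ := fun k => Real.log (gam D) + 4 * Real.log (T k) with hL
  obtain ⟨Lr, hLr0, hLr⟩ : ∃ Lr : ℝ, 0 ≤ Lr ∧ ∀ k ∈ Finset.range (r + 1), |L k| ≤ Lr := by
    refine ⟨∑ k ∈ Finset.range (r + 1), |L k|, Finset.sum_nonneg (fun _ _ => abs_nonneg _), ?_⟩
    intro k hk
    exact Finset.single_le_sum (f := fun k => |L k|) (fun _ _ => abs_nonneg _) hk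
  obtain ⟨Y', hY'0, hY'⟩ : ∃ Y' : ℝ, 0 ≤ Y' ∧ Y ≤ Y' := ⟨max Y 0, le_max_right _ _, le_max_left _ _⟩
  obtain ⟨C1, hC1⟩ : ∃ C1 : ℝ, C1 = dm + Lr + 3 * Y' + 1 := ⟨_, rfl⟩
  have hC10 : 0 < C1 := by rw [hC1]; linarith
  obtain ⟨C5, hC5⟩ : ∃ C5 : ℝ, C5 = Lr + 4 * ((C1 * r + dm + Lr) / 3 + ρ) := ⟨_, rfl⟩
  have hr0 : (0 : ℝ) ≤ r := Nat.cast_nonneg r
  have hC1r : 0 ≤ C1 * r := mul_nonneg hC10.le hr0
  have hC50 : 0 ≤ C5 := by rw [hC5]; linarith
  obtain ⟨Θ, hΘ⟩ : ∃ Θ : ℝ, Θ = C1 * r + dm + 2 * C5 + Y' := ⟨_, rfl⟩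
  set τ : ℕ → ℝ := fun i => Θ - C1 * i with hτ
  set lam : ℕ → ℝ := fun i => t (G ^ i) + ((⌊(τ i - t (G ^ i)) / d (G ^ i)⌋ : ℝ) + 1 / 2)
    * d (G ^ i) with hlam
  have hlt : ∀ i ∈ Finset.range (r + 1), |lam i - τ i| ≤ dm / 2 := by
    intro i hi
    have h1 := centre (τ i) (t (G ^ i)) (d (G ^ i)) (hd _)
    exact h1.trans (by linarith [hdm i hi])
  have hlow : ∀ i ∈ Finset.range (r + 1), 2 * C5 + Y' ≤ lam i := by
    intro i hi
    have h1 := (abs_le.mp (hlt i hi)).1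
    have h2 : (i : ℝ) ≤ r := by
      exact_mod_cast Nat.lt_succ_iff.mp (Finset.mem_range.mp hi)
    have h3 : C1 * i ≤ C1 * r := mul_le_mul_of_nonneg_left h2 hC10.le
    have h4 : τ i = C1 * r + dm + 2 * C5 + Y' - C1 * i := by rw [hτ, hΘ]
    rw [h4] at h1
    linarith
  -- representatives
  have hrep : ∀ i : Fin (r + 1), ∃ l : ℕ, 0 < l ∧ |Real.log (sg D R l) - lam i| < ρ := by
    intro i
    have hi := Finset.mem_range.mpr i.isLt
    obtain ⟨l, h1, -, h2⟩ := hY (lam i) (hY'.trans (by linarith [hlow i hi]))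
    exact ⟨l, h1, h2⟩
  choose l hl0 hl using hrep
  have hr : 0 < r := Fin.pos (c 0)
  obtain ⟨i', j', hij', hcol'⟩ := Fintype.exists_ne_map_eq_of_card_lt
    (fun i : Fin (r + 1) => c (G ^ (i : ℕ) * sg D R (l i))) (by simp)
  -- colours of all numbers near the centre
  have hcolour : ∀ i : Fin (r + 1), ∀ m : ℕ, Gd D M m →
      ((m : ℕ) : ZMod M) = ((-D.sign : ℤ) : ZMod M) → |Real.log m - lam i| < δ0 / 2 →
      c (G ^ (i : ℕ) * m) = c (G ^ (i : ℕ) * sg D R (l i)) := by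
    intro i m hm hres hsz
    have hi := Finset.mem_range.mpr i.isLt
    refine hc _ _ _ (pow_pos hGp _) (hm.mul (gd_sg D M R (l i) hMR h2R)) ?_ ?_
    · rw [← ZMod.natCast_eq_natCast_iff, hres, sg_mod D hD M R (l i) hMR h2R hRp (hl0 i)]
    · rw [floor_near (τ i) (t (G ^ (i : ℕ))) (d (G ^ (i : ℕ))) (Real.log m) (hd _)
        (lt_of_lt_of_le hsz (by linarith [hδd i hi])),
        floor_near (τ i) (t (G ^ (i : ℕ))) (d (G ^ (i : ℕ))) (Real.log (sg D R (l i))) (hd _)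
        (lt_of_lt_of_le (hl i) (by linarith [hδd i hi]))]
  -- order the two indices
  obtain ⟨i, j, hij, hcol⟩ : ∃ i j : Fin (r + 1), i < j ∧
      c (G ^ (i : ℕ) * sg D R (l i)) = c (G ^ (j : ℕ) * sg D R (l j)) := by
    rcases lt_or_gt_of_ne hij' with h | h
    · exact ⟨i', j', h, hcol'⟩
    · exact ⟨j', i', h, hcol'.symm⟩
  have hi := Finset.mem_range.mpr i.isLt
  have hj := Finset.mem_range.mpr j.isLt
  have hijN : (i : ℕ) < (j : ℕ) := hij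
  obtain ⟨k, hk⟩ : ∃ k : ℕ, k = (j : ℕ) - (i : ℕ) := ⟨_, rfl⟩
  have hk0 : 0 < k := by omega
  have hkr : k ∈ Finset.range (r + 1) := by
    have := j.isLt
    exact Finset.mem_range.mpr (by omega)
  have hkj : (i : ℕ) + k = (j : ℕ) := by omega
  have hLk := hLr k hkr
  -- the difference of the sizes
  have hΔ1 : C1 - dm ≤ lam i - lam j := by
    have h1 := (abs_le.mp (hlt i hi)).1
    have h2 := (abs_le.mp (hlt j hj)).2
    have h3 : τ i - τ j = C1 * (k : ℝ) := by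
      have : ((j : ℕ) : ℝ) = (i : ℕ) + (k : ℝ) := by exact_mod_cast hkj.symm
      simp only [hτ]
      rw [this]
      ring
    have h4 : C1 * 1 ≤ C1 * (k : ℝ) := by
      apply mul_le_mul_of_nonneg_left _ hC10.le
      exact_mod_cast hk0
    linarith
  have hΔ2 : lam i - lam j ≤ C1 * r + dm := by
    have h1 := (abs_le.mp (hlt i hi)).2
    have h2 := (abs_le.mp (hlt j hj)).1
    have h3 : τ i - τ j = C1 * (k : ℝ) := by
      have : ((j : ℕ) : ℝ) = (i : ℕ) + (k : ℝ) := by exact_mod_cast hkj.symm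
      simp only [hτ]
      rw [this]
      ring
    have h4 : C1 * (k : ℝ) ≤ C1 * r := by
      apply mul_le_mul_of_nonneg_left _ hC10.le
      exact_mod_cast Nat.lt_succ_iff.mp (Finset.mem_range.mp hkr)
    linarith
  -- the free parameter of the family
  obtain ⟨l1, hl10, hσ0, hσ⟩ := hY ((lam i - lam j - L k) / 3) (by
    have := (abs_le.mp hLk).2
    linarith)
  set σ : ℕ := sg D R l1 with hσdef
  have hσg : Gd D M σ := gd_sg D M R l1 hMR h2R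
  have hσp : 0 < σ := hσg.pos
  have hσp' : (0 : ℝ) < σ := by exact_mod_cast hσp
  set w : ℕ := T k * σ with hw
  have hwp : 0 < w := Nat.mul_pos (hTp k) hσp
  have hNw : N0 ∣ w := Dvd.dvd.mul_right (hNT k hk0) _
  have hMw : M ∣ w := hMN.trans hNw
  have hMw' : (M : ℤ) ∣ (w : ℤ) := by exact_mod_cast hMw
  have hBw : bb D ∣ (w : ℤ) := by
    have h1 : (bb D).natAbs ∣ w := by
      refine Dvd.dvd.trans ?_ hNw
      rw [hN0]
      exact ⟨M * (ff D).natAbs, by ring⟩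
    exact Int.dvd_natCast.mpr h1
  have hfw : ff D ∣ (w : ℤ) := by
    have h1 : (ff D).natAbs ∣ w := by
      refine Dvd.dvd.trans ?_ hNw
      rw [hN0]
      exact ⟨M * (bb D).natAbs, by ring⟩
    exact Int.dvd_natCast.mpr h1
  obtain ⟨hU, hV, hZ, hlt2⟩ := hw0 w (hσ0.trans (Nat.le_mul_of_pos_left σ (hTp k)))
  have hTk : (0 : ℝ) < T k := by exact_mod_cast hTp k
  have hlogw : Real.log (gam D) + 4 * Real.log (w : ℝ) = L k + 4 * Real.log σ := by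
    have : ((w : ℕ) : ℝ) = (T k : ℝ) * (σ : ℝ) := by rw [hw]; push_cast; ring
    rw [this, Real.log_mul hTk.ne' hσp'.ne', hL]
    ring
  rw [hlogw] at hU hV hZ
  set A : ℝ := L k + 4 * Real.log σ with hA
  rw [abs_lt] at hσ hU hV hZ
  have hA5 : A ≤ C5 := by
    have h1 := (abs_le.mp hLk).2
    have h2 := (abs_le.mp hLk).1
    rw [hA, hC5]
    linarith [hσ.2]
  obtain ⟨l2, hl20, -, hk1⟩ := hY (lam i - 2 * A) (by linarith [hlow i hi])
  set k1 : ℕ := sg D R l2 with hk1def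
  have hk1g : Gd D M k1 := gd_sg D M R l2 hMR h2R
  have hk1p : 0 < k1 := hk1g.pos
  have hk1p' : (0 : ℝ) < k1 := by exact_mod_cast hk1p
  rw [abs_lt] at hk1
  have hUg := gd_UU D w M hMw' hBw hfw
  have hVg := gd_VV D w M hMw' hBw hfw
  have hZg := gd_ZZ D w M hMw' hBw hfw
  have hUp : (0 : ℝ) < UU D w := by exact_mod_cast hUg.pos
  have hVp : (0 : ℝ) < VV D w := by exact_mod_cast hVg.pos
  have hZp : (0 : ℝ) < ZZ D w := by exact_mod_cast hZg.pos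
  -- the three colours
  have cz : c (G ^ (i : ℕ) * (k1 * ZZ D w)) = c (G ^ (i : ℕ) * sg D R (l i)) := by
    refine hcolour i _ (hk1g.mul hZg) ?_ ?_
    · rw [Nat.cast_mul, ZZ_mod D M w hMw, mul_one,
        sg_mod D hD M R l2 hMR h2R hRp hl20]
    · rw [Nat.cast_mul, Real.log_mul hk1p'.ne' hZp.ne', abs_lt]
      constructor <;> linarith [hk1.1, hk1.2, hZ.1, hZ.2]
  have cy : c (G ^ (i : ℕ) * (k1 * VV D w)) = c (G ^ (i : ℕ) * sg D R (l i)) := by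
    refine hcolour i _ (hk1g.mul hVg) ?_ ?_
    · rw [Nat.cast_mul, VV_mod D M w hMw hlt2, mul_one,
        sg_mod D hD M R l2 hMR h2R hRp hl20]
    · rw [Nat.cast_mul, Real.log_mul hk1p'.ne' hVp.ne', abs_lt]
      constructor <;> linarith [hk1.1, hk1.2, hV.1, hV.2]
  have cx : c (G ^ (j : ℕ) * (k1 * (σ * UU D w))) = c (G ^ (j : ℕ) * sg D R (l j)) := by
    refine hcolour j _ (hk1g.mul (hσg.mul hUg)) ?_ ?_
    · rw [Nat.cast_mul, Nat.cast_mul, UU_mod D hD M w hMw hwp,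
        sg_mod D hD M R l1 hMR h2R hRp hl10, sign_sq D hD M, mul_one,
        sg_mod D hD M R l2 hMR h2R hRp hl20]
    · rw [Nat.cast_mul, Nat.cast_mul, Real.log_mul hk1p'.ne' (mul_ne_zero hσp'.ne' hUp.ne'),
        Real.log_mul hσp'.ne' hUp.ne', abs_lt]
      constructor <;> linarith [hk1.1, hk1.2, hU.1, hU.2, hσ.1, hσ.2]
  -- the first leg
  have hleg : G ^ (i : ℕ) * k1 * (2 * (nn D w).natAbs * UU D w)
      = G ^ (j : ℕ) * (k1 * (σ * UU D w)) := by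
    have h1 : (nn D w).natAbs = 8 * (D * ff D).natAbs * w := by
      unfold nn
      rw [show 8 * D * ff D * (w : ℤ) = 8 * (D * ff D) * (w : ℤ) by ring, Int.natAbs_mul,
        Int.natAbs_mul]
      rfl
    have h2 : 2 * (nn D w).natAbs = G ^ k * σ := by
      rw [h1, ← hTG k hk0, hw, hg]
      ring
    rw [h2, ← hkj, pow_add]
    ring
  refine ⟨G ^ (j : ℕ) * (k1 * (σ * UU D w)), G ^ (i : ℕ) * (k1 * VV D w),
    G ^ (i : ℕ) * (k1 * ZZ D w), ?_, ?_, ?_, ?_, ?_, ?_⟩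
  · exact Nat.mul_pos (pow_pos hGp _) (Nat.mul_pos hk1p (Nat.mul_pos hσp hUg.pos))
  · exact Nat.mul_pos (pow_pos hGp _) (Nat.mul_pos hk1p hVg.pos)
  · exact Nat.mul_pos (pow_pos hGp _) (Nat.mul_pos hk1p hZg.pos)
  · rw [← hleg]
    have h3 := triple D w
    calc (G ^ (i : ℕ) * k1 * (2 * (nn D w).natAbs * UU D w)) ^ 2
        + (G ^ (i : ℕ) * (k1 * VV D w)) ^ 2
        = (G ^ (i : ℕ) * k1) ^ 2 * ((2 * (nn D w).natAbs * UU D w) ^ 2 + VV D w ^ 2) := by ring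
      _ = (G ^ (i : ℕ) * (k1 * ZZ D w)) ^ 2 := by
        rw [h3]
        ring
  · rw [cx, cy, hcol]
  · rw [cy, cz]

end Pool.Agent.Work.MP_0f91f8_co.QF
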