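import Pool.Agent.Work.MP_0f91f8_co.QF.Arith

set_option autoImplicit false

/-!
# Colourings which ignore the primes that split in a quadratic field: sizes
-/

open Filter Topology

namespace Pool.Agent.Work.MP_0f91f8_co.QF

theorem lim_zero (a : ℝ) (k : ℕ) (hk : 0 < k) :
    Tendsto (fun n : ℕ => a * (1 / (n : ℝ) ^ k)) atTop (𝓝 0) := by
  have h1 : Tendsto (fun n : ℕ => (n : ℝ) ^ k) atTop atTop :=
    (tendsto_pow_atTop hk.ne').comp tendsto_natCast_atTop_atTop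
  have h2 : Tendsto (fun n : ℕ => 1 / (n : ℝ) ^ k) atTop (𝓝 0) := by
    simp only [one_div]
    exact tendsto_inv_atTop_zero.comp h1
  simpa using h2.const_mul a

/-- the constant in the size of `m` -/
noncomputable def gam (D : ℤ) : ℝ := 4 * (D : ℝ) ^ 3 * (ee D : ℝ) ^ 6

theorem gam_ne {D : ℤ} (hD : D ≠ 0) : gam D ≠ 0 := by
  unfold gam
  have h1 : (D : ℝ) ≠ 0 := by exact_mod_cast hD
  have h2 : (ee D : ℝ) ≠ 0 := by exact_mod_cast ee_ne D
  positivity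

theorem asym (D : ℤ) (hD : D ≠ 0) (ρ : ℝ) (hρ : 0 < ρ) : ∃ w0 : ℕ, ∀ w : ℕ, w0 ≤ w →
    |Real.log (UU D w) - (Real.log (gam D) + 4 * Real.log w)| < ρ ∧
    |Real.log (VV D w) - 2 * (Real.log (gam D) + 4 * Real.log w)| < ρ ∧
    |Real.log (ZZ D w) - 2 * (Real.log (gam D) + 4 * Real.log w)| < ρ ∧
    nn D w ^ 2 < mm D w ^ 2 := by
  have hg := gam_ne hD
  have hf1 : Tendsto (fun w : ℕ => 1 - (gam D)⁻¹ * (1 / (w : ℝ) ^ 4)) atTop (𝓝 1) := by
    simpa using tendsto_const_nhds.sub (lim_zero (gam D)⁻¹ 4 (by norm_num))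
  have hf2 : Tendsto (fun w : ℕ => (8 * D * ff D / gam D : ℝ) * (1 / (w : ℝ) ^ 3)) atTop (𝓝 0) :=
    lim_zero _ 3 (by norm_num)
  have hV : Tendsto (fun w : ℕ => (1 - (gam D)⁻¹ * (1 / (w : ℝ) ^ 4)) ^ 2
      - ((8 * D * ff D / gam D : ℝ) * (1 / (w : ℝ) ^ 3)) ^ 2) atTop (𝓝 1) := by
    simpa using (hf1.pow 2).sub (hf2.pow 2)
  have hZ : Tendsto (fun w : ℕ => (1 - (gam D)⁻¹ * (1 / (w : ℝ) ^ 4)) ^ 2
      + ((8 * D * ff D / gam D : ℝ) * (1 / (w : ℝ) ^ 3)) ^ 2) atTop (𝓝 1) := by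
    simpa using (hf1.pow 2).add (hf2.pow 2)
  have hl : ∀ f : ℕ → ℝ, Tendsto f atTop (𝓝 1) →
      ∀ᶠ w in atTop, |Real.log (f w)| < ρ ∧ 0 < f w := by
    intro f hf
    have h1 : Tendsto (fun w => Real.log (f w)) atTop (𝓝 0) := by
      have := (Real.continuousAt_log (one_ne_zero)).tendsto.comp hf
      rw [Real.log_one] at this
      exact this
    have h2 := (Metric.tendsto_nhds.mp h1) ρ hρ
    have h3 := hf.eventually (lt_mem_nhds (zero_lt_one))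
    filter_upwards [h2, h3] with w hw hw'
    refine ⟨?_, hw'⟩
    rwa [Real.dist_eq, sub_zero] at hw
  obtain ⟨w1, hw1⟩ := eventually_atTop.mp ((hl _ hf1).and ((hl _ hV).and (hl _ hZ)))
  refine ⟨max w1 1, fun w hw => ?_⟩
  obtain ⟨⟨hU1, hU2⟩, ⟨hV1, hV2⟩, ⟨hZ1, hZ2⟩⟩ := hw1 w ((le_max_left _ _).trans hw)
  have hw0 : (0 : ℝ) < w := by
    have : 1 ≤ w := (le_max_right _ _).trans hw
    exact_mod_cast this
  have hx0 : gam D * (w : ℝ) ^ 4 ≠ 0 := mul_ne_zero hg (pow_ne_zero 4 hw0.ne')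
  have hlx : Real.log (gam D * (w : ℝ) ^ 4) = Real.log (gam D) + 4 * Real.log w := by
    rw [Real.log_mul hg (pow_ne_zero 4 hw0.ne'), Real.log_pow]
    norm_num
  have hm : ((mm D w : ℤ) : ℝ) = (1 - (gam D)⁻¹ * (1 / (w : ℝ) ^ 4)) * (gam D * (w : ℝ) ^ 4) := by
    have h1 : ((mm D w : ℤ) : ℝ) = gam D * (w : ℝ) ^ 4 - 1 := by
      unfold mm gam
      push_cast
      ring
    rw [h1]
    field_simp
  have hn : ((nn D w : ℤ) : ℝ)
      = ((8 * D * ff D / gam D : ℝ) * (1 / (w : ℝ) ^ 3)) * (gam D * (w : ℝ) ^ 4) := by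
    have h1 : ((nn D w : ℤ) : ℝ) = 8 * D * ff D * w := by
      unfold nn
      push_cast
      ring
    rw [h1]
    field_simp
  have hsq : ((mm D w ^ 2 - nn D w ^ 2 : ℤ) : ℝ) = ((1 - (gam D)⁻¹ * (1 / (w : ℝ) ^ 4)) ^ 2
      - ((8 * D * ff D / gam D : ℝ) * (1 / (w : ℝ) ^ 3)) ^ 2) * (gam D * (w : ℝ) ^ 4) ^ 2 := by
    push_cast
    rw [hm, hn]
    ring
  have hsq' : ((mm D w ^ 2 + nn D w ^ 2 : ℤ) : ℝ) = ((1 - (gam D)⁻¹ * (1 / (w : ℝ) ^ 4)) ^ 2
      + ((8 * D * ff D / gam D : ℝ) * (1 / (w : ℝ) ^ 3)) ^ 2) * (gam D * (w : ℝ) ^ 4) ^ 2 := by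
    push_cast
    rw [hm, hn]
    ring
  have hl2 : Real.log ((gam D * (w : ℝ) ^ 4) ^ 2) = 2 * (Real.log (gam D) + 4 * Real.log w) := by
    rw [Real.log_pow, hlx]
    norm_num
  refine ⟨?_, ?_, ?_, ?_⟩
  · unfold UU
    rw [Nat.cast_natAbs, Int.cast_abs, Real.log_abs, hm, Real.log_mul hU2.ne' hx0, hlx,
      add_sub_cancel_right]
    exact hU1
  · unfold VV
    rw [Nat.cast_natAbs, Int.cast_abs, Real.log_abs, hsq,
      Real.log_mul hV2.ne' (pow_ne_zero 2 hx0), hl2, add_sub_cancel_right]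
    exact hV1
  · unfold ZZ
    rw [Nat.cast_natAbs, Int.cast_abs, Real.log_abs, hsq',
      Real.log_mul hZ2.ne' (pow_ne_zero 2 hx0), hl2, add_sub_cancel_right]
    exact hZ1
  · have h1 : (0 : ℝ) < ((mm D w ^ 2 - nn D w ^ 2 : ℤ) : ℝ) := by
      rw [hsq]
      exact mul_pos hV2 (by positivity)
    have h2 : (0 : ℤ) < mm D w ^ 2 - nn D w ^ 2 := by exact_mod_cast h1
    linarith

/-- split numbers in every short logarithmic interval -/
theorem window (D : ℤ) (hD : D ≠ 0) (R : ℕ) (hR : 0 < R) (ρ : ℝ) (hρ : 0 < ρ) (n0 : ℕ) :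
    ∃ Y : ℝ, ∀ x : ℝ, Y ≤ x → ∃ l : ℕ, 0 < l ∧ n0 ≤ sg D R l ∧
      |Real.log (sg D R l) - x| < ρ := by
  set K : ℝ := (D : ℝ) * (R : ℝ) ^ 2 with hK
  have hK0 : K ≠ 0 := by
    have h1 : (D : ℝ) ≠ 0 := by exact_mod_cast hD
    have h2 : (R : ℝ) ≠ 0 := by exact_mod_cast hR.ne'
    exact mul_ne_zero h1 (pow_ne_zero 2 h2)
  have hA : Tendsto (fun l : ℕ => Real.log (1 - K⁻¹ * (1 / (l : ℝ) ^ 2))) atTop (𝓝 0) := by
    have h1 : Tendsto (fun l : ℕ => 1 - K⁻¹ * (1 / (l : ℝ) ^ 2)) atTop (𝓝 1) := by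
      simpa using tendsto_const_nhds.sub (lim_zero K⁻¹ 2 (by norm_num))
    have := (Real.continuousAt_log (one_ne_zero)).tendsto.comp h1
    rw [Real.log_one] at this
    exact this
  have hA' : Tendsto (fun l : ℕ => 1 - K⁻¹ * (1 / (l : ℝ) ^ 2)) atTop (𝓝 1) := by
    simpa using tendsto_const_nhds.sub (lim_zero K⁻¹ 2 (by norm_num))
  have he : Tendsto (fun x : ℝ => Real.exp ((x - Real.log K) / 2)) atTop atTop := by
    refine Real.tendsto_exp_atTop.comp ?_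
    refine Tendsto.atTop_div_const (by norm_num) ?_
    exact tendsto_atTop_add_const_right _ _ tendsto_id
  have hl : Tendsto (fun x : ℝ => ⌈Real.exp ((x - Real.log K) / 2)⌉₊) atTop atTop :=
    tendsto_nat_ceil_atTop.comp he
  have hB : Tendsto (fun x : ℝ => Real.log ((⌈Real.exp ((x - Real.log K) / 2)⌉₊ : ℝ)
      / Real.exp ((x - Real.log K) / 2))) atTop (𝓝 0) := by
    have h1 : Tendsto (fun x : ℝ => (⌈Real.exp ((x - Real.log K) / 2)⌉₊ : ℝ)
      / Real.exp ((x - Real.log K) / 2)) atTop (𝓝 1) := tendsto_nat_ceil_div_atTop.comp he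
    have := (Real.continuousAt_log (one_ne_zero)).tendsto.comp h1
    rw [Real.log_one] at this
    exact this
  have e1 := (Metric.tendsto_nhds.mp (hA.comp hl)) (ρ / 2) (by positivity)
  have e2 := (Metric.tendsto_nhds.mp hB) (ρ / 4) (by positivity)
  have e3 := hl.eventually (eventually_gt_atTop 0)
  have e4 := eventually_gt_atTop (Real.log n0 + ρ)
  have e5 := (hA'.comp hl).eventually (lt_mem_nhds (zero_lt_one))
  obtain ⟨Y, hY⟩ := eventually_atTop.mp (e1.and (e2.and (e3.and (e4.and e5))))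
  refine ⟨Y, fun x hx => ?_⟩
  obtain ⟨h1, h2, h3, h4, h5⟩ := hY x hx
  simp only [Function.comp_apply, Real.dist_eq, sub_zero] at h1 h2 h5
  set l : ℕ := ⌈Real.exp ((x - Real.log K) / 2)⌉₊ with hldef
  have hl0 : (0 : ℝ) < l := by exact_mod_cast h3
  have hlog : Real.log (sg D R l)
      = Real.log (1 - K⁻¹ * (1 / (l : ℝ) ^ 2)) + (Real.log K + 2 * Real.log l) := by
    have h6 : ((D * (R * l : ℤ) ^ 2 - 1 : ℤ) : ℝ)
        = (1 - K⁻¹ * (1 / (l : ℝ) ^ 2)) * (K * (l : ℝ) ^ 2) := by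
      push_cast
      field_simp
      rw [hK]
      ring
    unfold sg
    rw [Nat.cast_natAbs, Int.cast_abs, Real.log_abs, h6, Real.log_mul h5.ne'
      (mul_ne_zero hK0 (pow_ne_zero 2 hl0.ne')), Real.log_mul hK0 (pow_ne_zero 2 hl0.ne'),
      Real.log_pow]
    norm_num
  have h2' : |Real.log l - (x - Real.log K) / 2| < ρ / 4 := by
    rwa [Real.log_div hl0.ne' (Real.exp_pos _).ne', Real.log_exp] at h2
  have hfin : |Real.log (sg D R l) - x| < ρ := by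
    rw [hlog]
    rw [abs_lt] at h1 h2' ⊢
    constructor <;> linarith [h1.1, h1.2, h2'.1, h2'.2]
  refine ⟨l, h3, ?_, hfin⟩
  by_contra hlt
  push Not at hlt
  have h7 : Real.log (sg D R l) ≤ Real.log n0 := by
    rcases Nat.eq_zero_or_pos (sg D R l) with h0 | h0
    · rw [h0]
      simp only [Nat.cast_zero, Real.log_zero]
      exact Real.log_natCast_nonneg n0
    · exact Real.log_le_log (by exact_mod_cast h0) (by exact_mod_cast hlt.le)
  rw [abs_lt] at hfin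
  linarith [hfin.1]

end Pool.Agent.Work.MP_0f91f8_co.QF
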